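import Pool.Agent.Lib.MP_dcb6ed_co_AMP.Sym
import Pool.Agent.Lib.MP_6d56f7_co_FR.DefsT

/-!
# Project AMP (MP_dcb6ed_co): the symmetries of the pairs (edge, colour)
-/

set_option autoImplicit false

set_option linter.unusedSectionVars false

namespace Pool.Agent.Lib.AMP

open Finset Pool.Agent.Lib.FR

section Count

variable {V : Type} [Fintype V] [DecidableEq V]

theorem cnt_step (A B : Finset V) {a : V} (ha : a ∉ A) :
    Fintype.card V * (univ.filter (fun σ : Equiv.Perm V => ∀ x ∈ insert a A, σ x ∈ B)).card ≤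
      B.card * (univ.filter (fun σ : Equiv.Perm V => ∀ x ∈ A, σ x ∈ B)).card := by
  rw [← card_univ (α := V), mul_comm, ← card_product, mul_comm, ← card_product]
  refine card_le_card_of_injOn (fun q => (Equiv.swap (q.1 a) q.2 * q.1, q.1 a)) ?_ ?_
  · rintro ⟨σ, y⟩ hq
    rw [mem_coe, mem_product, mem_filter] at hq ⊢
    obtain ⟨⟨-, hq⟩, -⟩ := hq
    refine ⟨⟨mem_univ _, fun x hx => ?_⟩, hq a (mem_insert_self _ _)⟩
    show (Equiv.swap (σ a) y * σ) x ∈ B
    rw [Equiv.Perm.mul_apply]
    have hxa : σ x ≠ σ a := by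
      intro h
      exact ha (σ.injective h ▸ hx)
    by_cases hy : σ x = y
    · rw [hy, Equiv.swap_apply_right]
      exact hq a (mem_insert_self _ _)
    · rw [Equiv.swap_apply_of_ne_of_ne hxa hy]
      exact hq x (mem_insert_of_mem hx)
  · rintro ⟨σ, y⟩ _ ⟨σ', y'⟩ _ h
    simp only [Prod.mk.injEq] at h
    obtain ⟨h1, h2⟩ := h
    have h3 : y = y' := by
      have := congrArg (fun π : Equiv.Perm V => π a) h1
      simpa [Equiv.Perm.mul_apply] using this
    subst h3
    rw [h2] at h1
    have h4 := mul_left_cancel h1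
    rw [h4]

theorem cnt (A B : Finset V) :
    Fintype.card V ^ A.card * (univ.filter (fun σ : Equiv.Perm V => ∀ x ∈ A, σ x ∈ B)).card ≤
      B.card ^ A.card * Fintype.card (Equiv.Perm V) := by
  induction A using Finset.induction with
  | empty => simp [card_univ]
  | insert a A ha ih =>
    rw [card_insert_of_notMem ha, pow_succ, pow_succ]
    calc Fintype.card V ^ A.card * Fintype.card V *
          (univ.filter (fun σ : Equiv.Perm V => ∀ x ∈ insert a A, σ x ∈ B)).card
        = Fintype.card V ^ A.card * (Fintype.card V *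
          (univ.filter (fun σ : Equiv.Perm V => ∀ x ∈ insert a A, σ x ∈ B)).card) := by ring
      _ ≤ Fintype.card V ^ A.card * (B.card *
          (univ.filter (fun σ : Equiv.Perm V => ∀ x ∈ A, σ x ∈ B)).card) :=
          Nat.mul_le_mul_left _ (cnt_step A B ha)
      _ = B.card * (Fintype.card V ^ A.card *
          (univ.filter (fun σ : Equiv.Perm V => ∀ x ∈ A, σ x ∈ B)).card) := by ring
      _ ≤ B.card * (B.card ^ A.card * Fintype.card (Equiv.Perm V)) :=
          Nat.mul_le_mul_left _ ih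
      _ = _ := by ring

theorem cnt_inv (A B : Finset V) :
    Fintype.card V ^ A.card * (univ.filter (fun σ : Equiv.Perm V => ∀ x ∈ A, σ⁻¹ x ∈ B)).card ≤
      B.card ^ A.card * Fintype.card (Equiv.Perm V) := by
  have h : (univ.filter (fun σ : Equiv.Perm V => ∀ x ∈ A, σ⁻¹ x ∈ B)).card =
      (univ.filter (fun σ : Equiv.Perm V => ∀ x ∈ A, σ x ∈ B)).card := by
    refine card_bij (fun σ _ => σ⁻¹) ?_ ?_ ?_
    · intro σ hσ
      simpa using hσ
    · intro σ _ τ _ h
      exact inv_injective h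
    · intro σ hσ
      refine ⟨σ⁻¹, ?_, inv_inv σ⟩
      rw [mem_filter] at hσ ⊢
      refine ⟨mem_univ _, ?_⟩
      rw [inv_inv]
      exact hσ.2
  rw [h]
  exact cnt A B

/-- the proportion of the permutations which map `A` into `B` -/
theorem cnt_div (A B : Finset V) (hV : 0 < Fintype.card V) :
    ((univ.filter (fun σ : Equiv.Perm V => ∀ x ∈ A, σ⁻¹ x ∈ B)).card : ℝ) ≤
      ((B.card : ℝ) / Fintype.card V) ^ A.card * Fintype.card (Equiv.Perm V) := by
  have h : ((Fintype.card V ^ A.card *
      (univ.filter (fun σ : Equiv.Perm V => ∀ x ∈ A, σ⁻¹ x ∈ B)).card : ℕ) : ℝ) ≤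
      ((B.card ^ A.card * Fintype.card (Equiv.Perm V) : ℕ) : ℝ) := by
    exact_mod_cast cnt_inv A B
  push_cast at h
  have hV' : (0 : ℝ) < Fintype.card V := by exact_mod_cast hV
  rw [div_pow, div_mul_eq_mul_div, le_div_iff₀ (by positivity), mul_comm]
  exact h

end Count

section Act

variable {V C : Type} [Fintype V] [DecidableEq V] [Fintype C] [DecidableEq C]

/-- the action on edges -/
def pe (σ : Equiv.Perm V) : Equiv.Perm (Edge V) where
  toFun e := ⟨e.1.map σ, fun h => e.2 ((Sym2.isDiag_map σ.injective).1 h)⟩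
  invFun e := ⟨e.1.map σ.symm, fun h => e.2 ((Sym2.isDiag_map σ.symm.injective).1 h)⟩
  left_inv e := by
    apply Subtype.ext
    show (e.1.map σ).map σ.symm = e.1
    rw [Sym2.map_map]
    simp
  right_inv e := by
    apply Subtype.ext
    show (e.1.map σ.symm).map σ = e.1
    rw [Sym2.map_map]
    simp

/-- the action on pairs (edge, colour) -/
def rho : Equiv.Perm V × Equiv.Perm C →* Equiv.Perm (Edge V × C) where
  toFun g := (pe g.1).prodCongr g.2
  map_one' := by
    apply Equiv.ext
    rintro ⟨e, c⟩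
    apply Prod.ext
    · apply Subtype.ext
      show e.1.map (1 : Equiv.Perm V) = e.1
      simp
    · rfl
  map_mul' g h := by
    apply Equiv.ext
    rintro ⟨e, c⟩
    apply Prod.ext
    · apply Subtype.ext
      show e.1.map (g.1 * h.1 : Equiv.Perm V) = (e.1.map h.1).map g.1
      rw [Sym2.map_map]
      rfl
    · rfl

/-- the vertices of a set of pairs -/
def vs (T : Finset (Edge V × C)) : Finset V := univ.filter (fun v => ∃ x ∈ T, v ∈ x.1.1)

/-- the colours of a set of pairs -/
def cs (T : Finset (Edge V × C)) : Finset C := T.image Prod.snd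

/-- no subset has more elements than vertices and colours -/
def good (T : Finset (Edge V × C)) : Prop := ∀ R ⊆ T, R.card ≤ (vs R).card + (cs R).card

theorem good_mono {S T : Finset (Edge V × C)} (h : S ⊆ T) (hT : good T) : good S :=
  fun R hR => hT R (hR.trans h)

theorem card_vs_le (T : Finset (Edge V × C)) : (vs T).card ≤ 2 * T.card := by
  have h1 : vs T ⊆ T.biUnion (fun x => univ.filter (fun v => v ∈ x.1.1)) := by
    intro v hv
    simp only [vs, mem_filter, mem_univ, true_and] at hv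
    simpa [mem_biUnion] using hv
  refine (card_le_card h1).trans ?_
  have h2 : ∀ x ∈ T, (univ.filter (fun v => v ∈ x.1.1)).card ≤ 2 := by
    rintro ⟨⟨e, he⟩, c⟩ _
    induction e using Sym2.ind with
    | _ a b =>
      have h3 : univ.filter (fun v => v ∈ s(a, b)) ⊆ ({a, b} : Finset V) := by
        intro v hv
        simpa using hv
      exact (card_le_card h3).trans (card_le_two)
  refine (card_biUnion_le_card_mul _ _ 2 h2).trans (le_of_eq (mul_comm _ _))

theorem card_cs_le (T : Finset (Edge V × C)) : (cs T).card ≤ T.card := card_image_le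

theorem map_sub {R S : Finset (Edge V × C)} {g : Equiv.Perm V × Equiv.Perm C}
    (h : R ⊆ S.map (rho g).toEmbedding) :
    (∀ v ∈ vs R, g.1⁻¹ v ∈ vs S) ∧ ∀ c ∈ cs R, g.2⁻¹ c ∈ cs S := by
  constructor
  · intro v hv
    simp only [vs, mem_filter, mem_univ, true_and] at hv ⊢
    obtain ⟨x, hx, hvx⟩ := hv
    have h2 := h hx
    rw [mem_map] at h2
    obtain ⟨y, hy, hyx⟩ := h2
    refine ⟨y, hy, ?_⟩
    rw [← hyx] at hvx
    have h3 : v ∈ y.1.1.map g.1 := hvx
    rw [Sym2.mem_map] at h3
    obtain ⟨w, hw, hwv⟩ := h3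
    rw [← hwv]
    simpa using hw
  · intro c hc
    unfold cs at hc ⊢
    rw [mem_image] at hc ⊢
    obtain ⟨x, hx, hxc⟩ := hc
    have h2 := h hx
    rw [mem_map] at h2
    obtain ⟨y, hy, hyx⟩ := h2
    refine ⟨y, hy, ?_⟩
    rw [← hxc, ← hyx]
    show y.2 = g.2⁻¹ (g.2 y.2)
    simp

/-- the probability that a random copy of `S` contains `R` -/
theorem cnt_copy (hV : 0 < Fintype.card V) (hC : 0 < Fintype.card C)
    (R S : Finset (Edge V × C)) :
    ((univ.filter (fun g : Equiv.Perm V × Equiv.Perm C =>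
      R ⊆ S.map (rho g).toEmbedding)).card / Fintype.card (Equiv.Perm V × Equiv.Perm C) : ℝ) ≤
      (((vs S).card : ℝ) / Fintype.card V) ^ (vs R).card *
        (((cs S).card : ℝ) / Fintype.card C) ^ (cs R).card := by
  have h1 : (univ.filter (fun g : Equiv.Perm V × Equiv.Perm C =>
      R ⊆ S.map (rho g).toEmbedding)) ⊆
      (univ.filter (fun σ : Equiv.Perm V => ∀ x ∈ vs R, σ⁻¹ x ∈ vs S)) ×ˢ
      (univ.filter (fun σ : Equiv.Perm C => ∀ x ∈ cs R, σ⁻¹ x ∈ cs S)) := by
    intro g hg
    rw [mem_filter] at hg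
    rw [mem_product, mem_filter, mem_filter]
    exact ⟨⟨mem_univ _, (map_sub hg.2).1⟩, ⟨mem_univ _, (map_sub hg.2).2⟩⟩
  have h2 := card_le_card h1
  rw [card_product] at h2
  have h3 := cnt_div (vs R) (vs S) hV
  have h4 := cnt_div (cs R) (cs S) hC
  have hp : (0 : ℝ) < Fintype.card (Equiv.Perm V) := by exact_mod_cast Fintype.card_pos
  have hq : (0 : ℝ) < Fintype.card (Equiv.Perm C) := by exact_mod_cast Fintype.card_pos
  rw [Fintype.card_prod]
  push_cast
  rw [div_le_iff₀ (by positivity)]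
  calc ((univ.filter (fun g : Equiv.Perm V × Equiv.Perm C =>
        R ⊆ S.map (rho g).toEmbedding)).card : ℝ)
      ≤ ((univ.filter (fun σ : Equiv.Perm V => ∀ x ∈ vs R, σ⁻¹ x ∈ vs S)).card : ℝ) *
        ((univ.filter (fun σ : Equiv.Perm C => ∀ x ∈ cs R, σ⁻¹ x ∈ cs S)).card : ℝ) := by
        exact_mod_cast h2
    _ ≤ ((((vs S).card : ℝ) / Fintype.card V) ^ (vs R).card * Fintype.card (Equiv.Perm V)) *
        ((((cs S).card : ℝ) / Fintype.card C) ^ (cs R).card * Fintype.card (Equiv.Perm C)) :=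
        mul_le_mul h3 h4 (by positivity) (by positivity)
    _ = _ := by ring

end Act

end Pool.Agent.Lib.AMP
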