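import Pool.Agent.Lib.MP_dcb6ed_co_AMP.Act

/-!
# Project AMP (MP_dcb6ed_co): generalised influences of good sets, and the weight of bad sets
-/

set_option autoImplicit false
set_option linter.unusedSectionVars false

namespace Pool.Agent.Lib.AMP

open Finset Pool.Agent.Lib.FR

variable {V C : Type} [Fintype V] [DecidableEq V] [Fintype C] [DecidableEq C]

/-- the sizes of the model -/
structure Siz (V C : Type) [Fintype V] [Fintype C] (n k : ℕ) (p : ℝ) : Prop where
  n0 : 0 < n
  k0 : 0 < k
  kn : k ≤ n
  cV : Fintype.card V = 2 * n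
  cC : n ≤ Fintype.card C
  cC' : Fintype.card C ≤ 2 * n
  p0 : 0 < p
  p1 : 4 * p ≤ 1
  knp : (k : ℝ) ≤ n * p

theorem beta_le {n k : ℕ} {p : ℝ} (hz : Siz V C n k p) {f : Finset (Edge V × C) → ℝ}
    (hf : Inc f) (hF : ∀ (g : Equiv.Perm V × Equiv.Perm C) (W : Finset (Edge V × C)),
      f (W.map (rho g).toEmbedding) = f W) {S : Finset (Edge V × C)} (hSn : S.Nonempty)
    (hSk : S.card ≤ k) (hS : good S) :
    Inf p univ f S ≤ 4 ^ k * (Real.sqrt (2 ^ k * (k / (n * p))) + k * p) := by
  have hp0 := hz.p0
  have hp1 : p < 1 := by linarith [hz.p1]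
  have hn : (0 : ℝ) < n := by exact_mod_cast hz.n0
  have hk : (0 : ℝ) < k := by exact_mod_cast hz.k0
  have hkn : (k : ℝ) ≤ n := by exact_mod_cast hz.kn
  have hV : 0 < Fintype.card V := by rw [hz.cV]; have := hz.n0; omega
  have hC : 0 < Fintype.card C := lt_of_lt_of_le hz.n0 hz.cC
  set x : ℝ := k / (n * p) with hx
  have hx0 : 0 ≤ x := by positivity
  have hx1 : x ≤ 1 := (div_le_one (by positivity)).2 hz.knp
  have h1 : ∑ R ∈ S.powerset.erase ∅, (p ^ R.card)⁻¹ *
      ((univ.filter (fun g : Equiv.Perm V × Equiv.Perm C =>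
        R ⊆ S.map (rho g).toEmbedding)).card /
        Fintype.card (Equiv.Perm V × Equiv.Perm C) : ℝ) ≤ Real.sqrt (2 ^ k * x) ^ 2 := by
    rw [Real.sq_sqrt (by positivity)]
    calc ∑ R ∈ S.powerset.erase ∅, (p ^ R.card)⁻¹ *
        ((univ.filter (fun g : Equiv.Perm V × Equiv.Perm C =>
          R ⊆ S.map (rho g).toEmbedding)).card /
          Fintype.card (Equiv.Perm V × Equiv.Perm C) : ℝ)
        ≤ ∑ R ∈ S.powerset.erase ∅, x := by
          refine sum_le_sum fun R hR => ?_
          rw [mem_erase, mem_powerset] at hR
          have hRg := hS R hR.2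
          have h2 := cnt_copy hV hC R S
          have hy0 : (0 : ℝ) ≤ k / n := by positivity
          have hy1 : (k : ℝ) / n ≤ 1 := (div_le_one hn).2 hkn
          have h3 : ((vs S).card : ℝ) / Fintype.card V ≤ k / n := by
            rw [hz.cV, div_le_div_iff₀ (by push_cast; positivity) hn]
            have h4 : ((vs S).card : ℝ) ≤ 2 * k := by
              have := card_vs_le S
              exact_mod_cast this.trans (Nat.mul_le_mul_left 2 hSk)
            push_cast
            nlinarith
          have h4 : ((cs S).card : ℝ) / Fintype.card C ≤ k / n := by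
            have h5 : ((cs S).card : ℝ) ≤ k := by exact_mod_cast (card_cs_le S).trans hSk
            have h6 : (n : ℝ) ≤ Fintype.card C := by exact_mod_cast hz.cC
            exact div_le_div₀ hk.le h5 hn h6
          have h5 : ((vs S).card / Fintype.card V : ℝ) ^ (vs R).card *
              ((cs S).card / Fintype.card C : ℝ) ^ (cs R).card ≤ (k / n : ℝ) ^ R.card := by
            calc ((vs S).card / Fintype.card V : ℝ) ^ (vs R).card *
                ((cs S).card / Fintype.card C : ℝ) ^ (cs R).card
                ≤ (k / n : ℝ) ^ (vs R).card * (k / n : ℝ) ^ (cs R).card :=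
                  mul_le_mul (pow_le_pow_left₀ (by positivity) h3 _)
                    (pow_le_pow_left₀ (by positivity) h4 _) (by positivity) (by positivity)
              _ = (k / n : ℝ) ^ ((vs R).card + (cs R).card) := (pow_add _ _ _).symm
              _ ≤ _ := pow_le_pow_of_le_one hy0 hy1 hRg
          have hRc : R.card ≠ 0 := fun h => hR.1 (card_eq_zero.1 h)
          calc (p ^ R.card)⁻¹ * ((univ.filter (fun g : Equiv.Perm V × Equiv.Perm C =>
                R ⊆ S.map (rho g).toEmbedding)).card /
                Fintype.card (Equiv.Perm V × Equiv.Perm C) : ℝ)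
              ≤ (p ^ R.card)⁻¹ * (k / n : ℝ) ^ R.card :=
                mul_le_mul_of_nonneg_left (h2.trans h5) (by positivity)
            _ = x ^ R.card := by
                rw [hx, ← inv_pow, ← mul_pow]
                congr 1
                field_simp
            _ ≤ x := pow_le_of_le_one hx0 hx1 hRc
      _ ≤ 2 ^ k * x := by
          rw [sum_const, nsmul_eq_mul]
          refine mul_le_mul_of_nonneg_right ?_ hx0
          have h6 : (S.powerset.erase ∅).card ≤ 2 ^ k := by
            refine (card_le_card (erase_subset _ _)).trans ?_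
            rw [card_powerset]
            exact Nat.pow_le_pow_right (by norm_num) hSk
          exact_mod_cast h6
  have h2 := plant_le hp0 hp1.le rho S hf hF (Real.sqrt_nonneg _) h1
  have h3 := Ep_remove hp0.le hp1.le hf (subset_univ S)
  have h4 := Inf_le hp0 hp1 hf (subset_univ S) hSn
  have h5 : (S.card : ℝ) * p ≤ k * p := by
    have : (S.card : ℝ) ≤ k := by exact_mod_cast hSk
    exact mul_le_mul_of_nonneg_right this hp0.le
  refine h4.trans ?_
  have h6 : (4 : ℝ) ^ S.card ≤ 4 ^ k := pow_le_pow_right₀ (by norm_num) hSk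
  have h7 : Ep p univ (fun W => f (W ∪ S)) - Ep p univ (fun W => f (W \ S)) ≤
      Real.sqrt (2 ^ k * x) + k * p := by linarith
  have h8 : 0 ≤ Real.sqrt (2 ^ k * x) + k * p := by positivity
  calc (4 : ℝ) ^ S.card * (Ep p univ (fun W => f (W ∪ S)) - Ep p univ (fun W => f (W \ S)))
      ≤ 4 ^ S.card * (Real.sqrt (2 ^ k * x) + k * p) :=
        mul_le_mul_of_nonneg_left h7 (by positivity)
    _ ≤ _ := mul_le_mul_of_nonneg_right h6 h8

/-- sums over small subsets -/
theorem small_sum {X : Type} [Fintype X] [DecidableEq X] {x : ℝ} (hx : 0 ≤ x) (m : ℕ) {N : ℕ}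
    (hN : Fintype.card X ≤ N) :
    (∑ A : Finset X, if A.card ≤ m then x ^ A.card else 0) ≤ (1 + N * x) ^ m := by
  have h1 := sum_powerset_apply_card (fun j => if j ≤ m then x ^ j else 0)
    (x := (univ : Finset X))
  rw [powerset_univ, card_univ] at h1
  rw [h1, add_comm (1 : ℝ), add_pow]
  have h2 : ∀ j, (Fintype.card X).choose j • (if j ≤ m then x ^ j else 0) ≤
      if j ≤ m then (N * x) ^ j else 0 := by
    intro j
    split_ifs with h
    · rw [nsmul_eq_mul, mul_pow]
      refine mul_le_mul_of_nonneg_right ?_ (by positivity)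
      have h3 : (Fintype.card X).choose j ≤ N ^ j :=
        (Nat.choose_le_pow _ _).trans (Nat.pow_le_pow_left hN j)
      exact_mod_cast h3
    · simp
  calc ∑ j ∈ range (Fintype.card X + 1), (Fintype.card X).choose j •
        (if j ≤ m then x ^ j else 0)
      ≤ ∑ j ∈ range (Fintype.card X + 1), if j ≤ m then (N * x) ^ j else 0 :=
        sum_le_sum fun j _ => h2 j
    _ ≤ ∑ j ∈ range (m + 1), (N * x) ^ j := by
        rw [← sum_filter]
        refine sum_le_sum_of_subset_of_nonneg ?_ (fun j _ _ => by positivity)
        intro j hj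
        rw [mem_filter] at hj
        rw [mem_range]
        omega
    _ ≤ _ := by
        refine sum_le_sum fun j hj => ?_
        rw [mem_range] at hj
        rw [one_pow, mul_one]
        have h3 : (1 : ℝ) ≤ (m.choose j : ℝ) := by
          exact_mod_cast Nat.choose_pos (by omega)
        have h4 : 0 ≤ (N * x) ^ j := by positivity
        nlinarith

/-- the weight of the sets which are not good -/
theorem rho_le {n k : ℕ} {p : ℝ} (hz : Siz V C n k p) {f : Finset (Edge V × C) → ℝ}
    (hf : Inc f) [DecidablePred (good (V := V) (C := C))] :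
    (∑ T ∈ (univ : Finset (Edge V × C)).powerset,
      if T.card ≤ k ∧ ¬ good T then co p univ f T ^ 2 else 0) ≤
      2 ^ (4 * k ^ 3) * (4 * p) * (1 + 8 * (n * p)) ^ (3 * k) := by
  classical
  have hp0 := hz.p0
  have hp1 : p < 1 := by linarith [hz.p1]
  have hn : (0 : ℝ) < n := by exact_mod_cast hz.n0
  set x : ℝ := 4 * p with hx
  have hx0 : 0 ≤ x := by positivity
  have hx1 : x ≤ 1 := hz.p1
  -- step 1: union bound over rare subsets
  have h1 : (∑ T ∈ (univ : Finset (Edge V × C)).powerset,
      if T.card ≤ k ∧ ¬ good T then co p univ f T ^ 2 else 0) ≤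
      ∑ R ∈ (univ : Finset (Edge V × C)).powerset,
        if R.card ≤ k ∧ (vs R).card + (cs R).card < R.card then
          (∑ T ∈ (univ : Finset (Edge V × C)).powerset,
            if R ⊆ T then co p univ f T ^ 2 else 0) else 0 := by
    have h2 : (∑ R ∈ (univ : Finset (Edge V × C)).powerset,
        if R.card ≤ k ∧ (vs R).card + (cs R).card < R.card then
          (∑ T ∈ (univ : Finset (Edge V × C)).powerset,
            if R ⊆ T then co p univ f T ^ 2 else 0) else 0) =
        ∑ T ∈ (univ : Finset (Edge V × C)).powerset,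
          ∑ R ∈ (univ : Finset (Edge V × C)).powerset,
          if R.card ≤ k ∧ (vs R).card + (cs R).card < R.card then
            (if R ⊆ T then co p univ f T ^ 2 else 0) else 0 := by
      rw [sum_comm]
      refine sum_congr rfl fun R _ => ?_
      split_ifs
      · rfl
      · simp
    rw [h2]
    refine sum_le_sum fun T _ => ?_
    have hnn : ∀ R : Finset (Edge V × C), 0 ≤
        (if R.card ≤ k ∧ (vs R).card + (cs R).card < R.card then
            (if R ⊆ T then co p univ f T ^ 2 else 0) else 0) := by
      intro R
      split_ifs <;> positivity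
    by_cases hT : T.card ≤ k ∧ ¬ good T
    · rw [if_pos hT]
      obtain ⟨hT1, hT2⟩ := hT
      unfold good at hT2
      push Not at hT2
      obtain ⟨R, hR1, hR2⟩ := hT2
      refine le_trans ?_ (single_le_sum (fun R _ => hnn R)
        (mem_powerset.2 (subset_univ R)))
      rw [if_pos ⟨(card_le_card hR1).trans hT1, hR2⟩, if_pos hR1]
    · rw [if_neg hT]
      exact sum_nonneg fun R _ => hnn R
  -- step 2: each rare set has small weight
  have h2 : ∀ R : Finset (Edge V × C), R.Nonempty →
      (∑ T ∈ (univ : Finset (Edge V × C)).powerset,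
        if R ⊆ T then co p univ f T ^ 2 else 0) ≤ x ^ R.card := by
    intro R hR
    have h3 := Inf_le hp0 hp1 hf (subset_univ R) hR
    have hs := sg_sq hp0.le hp1.le
    have hs0 := sg_pos hp0 hp1
    unfold Inf at h3
    have h4 : Ep p univ (fun W => f (W ∪ R)) - Ep p univ (fun W => f (W \ R)) ≤ 1 := by
      have h5 : Ep p univ (fun W => f (W ∪ R)) ≤ 1 := by
        refine le_trans (Ep_mono hp0.le hp1.le (G := fun _ => 1) fun W _ => ?_)
          (Ep_const p univ 1).le
        rcases hf.zo (W ∪ R) with a | a <;> rw [a] <;> norm_num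
      have h6 : 0 ≤ Ep p univ (fun W => f (W \ R)) := Ep_nonneg hp0.le hp1.le fun W _ => by
        rcases hf.zo (W \ R) with a | a <;> rw [a]
        norm_num
      linarith
    set q : ℝ := ∑ T ∈ (univ : Finset (Edge V × C)).powerset,
        if R ⊆ T then co p univ f T ^ 2 else 0 with hq
    have h5 : (((sg p) ^ 2)⁻¹) ^ R.card * q ≤ 4 ^ R.card := by
      refine h3.trans ?_
      have : (0 : ℝ) < 4 ^ R.card := by positivity
      nlinarith
    have h6 : q ≤ 4 ^ R.card * (sg p ^ 2) ^ R.card := by
      rw [inv_pow, inv_mul_le_iff₀ (by positivity)] at h5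
      linarith [mul_comm ((sg p ^ 2) ^ R.card) (4 ^ R.card)]
    refine h6.trans ?_
    rw [← mul_pow, hs, hx]
    refine pow_le_pow_left₀ (by
      have : 0 < 1 - p := by linarith
      positivity) ?_ _
    nlinarith
  -- step 3: count the rare sets
  refine h1.trans ?_
  have h3 : ∀ R : Finset (Edge V × C),
      (if R.card ≤ k ∧ (vs R).card + (cs R).card < R.card then
          (∑ T ∈ (univ : Finset (Edge V × C)).powerset,
            if R ⊆ T then co p univ f T ^ 2 else 0) else 0) ≤
      ∑ A : Finset V, ∑ B : Finset C, if A.card ≤ 2 * k ∧ B.card ≤ k ∧ vs R = A ∧ cs R = B then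
        x * (x ^ A.card * x ^ B.card) else 0 := by
    intro R
    have hnn : ∀ (A : Finset V) (B : Finset C), 0 ≤
        (if A.card ≤ 2 * k ∧ B.card ≤ k ∧ vs R = A ∧ cs R = B then
          x * (x ^ A.card * x ^ B.card) else 0) := by
      intro A B
      split_ifs <;> positivity
    by_cases hR : R.card ≤ k ∧ (vs R).card + (cs R).card < R.card
    · rw [if_pos hR]
      have hRn : R.Nonempty := by
        rw [nonempty_iff_ne_empty]
        rintro rfl
        simp at hR
      refine (h2 R hRn).trans ?_
      refine le_trans ?_ (single_le_sum (f := fun A : Finset V => ∑ B : Finset C,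
        if A.card ≤ 2 * k ∧ B.card ≤ k ∧ vs R = A ∧ cs R = B then
        x * (x ^ A.card * x ^ B.card) else 0) (fun A _ => sum_nonneg fun B _ => hnn A B)
        (mem_univ (vs R)))
      refine le_trans ?_ (single_le_sum (f := fun B : Finset C =>
        if (vs R).card ≤ 2 * k ∧ B.card ≤ k ∧ vs R = vs R ∧ cs R = B then
        x * (x ^ (vs R).card * x ^ B.card) else 0) (fun B _ => hnn (vs R) B)
        (mem_univ (cs R)))
      have c1 : (vs R).card ≤ 2 * k := (card_vs_le R).trans (Nat.mul_le_mul_left 2 hR.1)
      have c2 : (cs R).card ≤ k := (card_cs_le R).trans hR.1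
      simp only [c1, c2, and_self, if_true]
      rw [← pow_add, ← pow_succ']
      exact pow_le_pow_of_le_one hx0 hx1 hR.2
    · rw [if_neg hR]
      exact sum_nonneg fun A _ => sum_nonneg fun B _ => hnn A B
  refine (sum_le_sum fun R _ => h3 R).trans ?_
  rw [sum_comm]
  have h4 : ∀ (A : Finset V) (B : Finset C),
      (∑ R ∈ (univ : Finset (Edge V × C)).powerset,
        if A.card ≤ 2 * k ∧ B.card ≤ k ∧ vs R = A ∧ cs R = B then
          x * (x ^ A.card * x ^ B.card) else 0) ≤
      2 ^ (4 * k ^ 3) * x * ((if A.card ≤ 2 * k then x ^ A.card else 0) *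
        (if B.card ≤ k then x ^ B.card else 0)) := by
    intro A B
    by_cases hA : A.card ≤ 2 * k
    · by_cases hB : B.card ≤ k
      · simp only [hA, hB, true_and, if_true]
        rw [← sum_filter, sum_const, nsmul_eq_mul]
        have h5 : ((univ : Finset (Edge V × C)).powerset.filter
            (fun R => vs R = A ∧ cs R = B)).card ≤ 2 ^ (4 * k ^ 3) := by
          have h6 : (univ : Finset (Edge V × C)).powerset.filter
              (fun R => vs R = A ∧ cs R = B) ⊆
              ((univ.filter (fun e : Edge V => ∀ v ∈ e.1, v ∈ A)) ×ˢ B).powerset := by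
            intro R hR
            rw [mem_filter] at hR
            obtain ⟨-, hR1, hR2⟩ := hR
            rw [mem_powerset]
            intro y hy
            rw [mem_product, mem_filter]
            refine ⟨⟨mem_univ _, fun v hv => ?_⟩, ?_⟩
            · rw [← hR1]
              simp only [vs, mem_filter, mem_univ, true_and]
              exact ⟨y, hy, hv⟩
            · rw [← hR2]
              exact mem_image_of_mem _ hy
          have h7 : (univ.filter (fun e : Edge V => ∀ v ∈ e.1, v ∈ A)).card ≤
              A.card * A.card := by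
            rw [← card_product]
            have h8 : (univ.filter (fun e : Edge V => ∀ v ∈ e.1, v ∈ A)).image
                (fun e => e.1) ⊆ (A ×ˢ A).image (fun q => s(q.1, q.2)) := by
              intro e he
              rw [mem_image] at he
              obtain ⟨⟨e', he'⟩, h9, rfl⟩ := he
              rw [mem_filter] at h9
              rw [mem_image]
              induction e' using Sym2.ind with
              | _ a b =>
                refine ⟨(a, b), ?_, rfl⟩
                rw [mem_product]
                exact ⟨h9.2 a (Sym2.mem_mk_left a b), h9.2 b (Sym2.mem_mk_right a b)⟩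
            calc (univ.filter (fun e : Edge V => ∀ v ∈ e.1, v ∈ A)).card
                = ((univ.filter (fun e : Edge V => ∀ v ∈ e.1, v ∈ A)).image
                    (fun e => e.1)).card :=
                  (card_image_of_injective _ Subtype.val_injective).symm
              _ ≤ _ := (card_le_card h8).trans card_image_le
          refine (card_le_card h6).trans ?_
          rw [card_powerset]
          refine Nat.pow_le_pow_right (by norm_num) ?_
          rw [card_product]
          calc _ ≤ (A.card * A.card) * B.card := Nat.mul_le_mul_right _ h7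
            _ ≤ ((2 * k) * (2 * k)) * k := Nat.mul_le_mul (Nat.mul_le_mul hA hA) hB
            _ = 4 * k ^ 3 := by ring
        have h6 : (((univ : Finset (Edge V × C)).powerset.filter
            (fun R => vs R = A ∧ cs R = B)).card : ℝ) ≤ 2 ^ (4 * k ^ 3) := by
          exact_mod_cast h5
        have h8 := mul_le_mul_of_nonneg_right h6
          (show 0 ≤ x * (x ^ A.card * x ^ B.card) by positivity)
        exact h8.trans (le_of_eq (by ring))
      · simp [hB]
    · simp [hA]
  have h5 : (∑ A : Finset V, ∑ B : Finset C,
      2 ^ (4 * k ^ 3) * x * ((if A.card ≤ 2 * k then x ^ A.card else 0) *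
        (if B.card ≤ k then x ^ B.card else 0))) ≤
      2 ^ (4 * k ^ 3) * x * (1 + 8 * (n * p)) ^ (3 * k) := by
    have h6 : (∑ A : Finset V, ∑ B : Finset C,
        2 ^ (4 * k ^ 3) * x * ((if A.card ≤ 2 * k then x ^ A.card else 0) *
          (if B.card ≤ k then x ^ B.card else 0))) =
        2 ^ (4 * k ^ 3) * x * ((∑ A : Finset V, if A.card ≤ 2 * k then x ^ A.card else 0) *
          ∑ B : Finset C, if B.card ≤ k then x ^ B.card else 0) := by
      rw [sum_mul_sum, mul_sum]
      refine sum_congr rfl fun A _ => ?_
      rw [mul_sum]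
    rw [h6]
    refine mul_le_mul_of_nonneg_left ?_ (by positivity)
    have h7 := small_sum (X := V) hx0 (2 * k) (N := 2 * n) hz.cV.le
    have h8 := small_sum (X := C) hx0 k (N := 2 * n) hz.cC'
    have h9 : (1 : ℝ) + ((2 * n : ℕ) : ℝ) * x = 1 + 8 * (n * p) := by
      rw [hx]
      push_cast
      ring
    rw [h9] at h7 h8
    have h10 : 3 * k = 2 * k + k := by ring
    rw [h10, pow_add]
    exact mul_le_mul h7 h8 (sum_nonneg fun B _ => by split_ifs <;> positivity) (by positivity)
  refine le_trans (le_of_eq ?_) ((sum_le_sum fun A _ => sum_le_sum fun B _ => h4 A B).trans h5)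
  refine sum_congr rfl fun A _ => ?_
  rw [sum_comm]

end Pool.Agent.Lib.AMP
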