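import Mathlib

/-!
# Project AMP (MP_dcb6ed_co): Fourier analysis of `p`-random subsets

`Ep p U F` is the expectation of `F W` for a `p`-random subset `W` of the finite set `U`.
-/

set_option autoImplicit false

namespace Pool.Agent.Lib.AMP

open Finset

variable {α : Type} [DecidableEq α]

/-- the probability that the `p`-random subset of `U` is `W` -/
noncomputable def wt (p : ℝ) (U W : Finset α) : ℝ := p ^ W.card * (1 - p) ^ (U \ W).card

/-- expectation of `F` of a `p`-random subset of `U` -/
noncomputable def Ep (p : ℝ) (U : Finset α) (F : Finset α → ℝ) : ℝ :=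
  ∑ W ∈ U.powerset, wt p U W * F W

/-- the standard deviation -/
noncomputable def sg (p : ℝ) : ℝ := Real.sqrt (p * (1 - p))

/-- the normalised coordinate -/
noncomputable def chi (p : ℝ) (i : α) (W : Finset α) : ℝ := ((if i ∈ W then 1 else 0) - p) / sg p

/-- the character of `T` -/
noncomputable def X (p : ℝ) (T W : Finset α) : ℝ := ∏ i ∈ T, chi p i W

/-- the function on subsets with coefficients `a` on the subsets of `U` -/
noncomputable def ev (p : ℝ) (U : Finset α) (a : Finset α → ℝ) (W : Finset α) : ℝ :=
  ∑ T ∈ U.powerset, a T * X p T W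

/-- the Fourier coefficient -/
noncomputable def co (p : ℝ) (U : Finset α) (f : Finset α → ℝ) (T : Finset α) : ℝ :=
  Ep p U (fun W => f W * X p T W)

/-- discrete derivative -/
def dl (i : α) (f : Finset α → ℝ) (W : Finset α) : ℝ := f (insert i W) - f (W.erase i)

theorem sg_sq {p : ℝ} (h0 : 0 ≤ p) (h1 : p ≤ 1) : sg p ^ 2 = p * (1 - p) :=
  Real.sq_sqrt (mul_nonneg h0 (by linarith))

theorem sg_pos {p : ℝ} (h0 : 0 < p) (h1 : p < 1) : 0 < sg p :=
  Real.sqrt_pos.2 (mul_pos h0 (by linarith))

theorem Ep_empty (p : ℝ) (F : Finset α → ℝ) : Ep p ∅ F = F ∅ := by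
  simp [Ep, wt]

theorem Ep_insert (p : ℝ) {i : α} {U : Finset α} (h : i ∉ U) (F : Finset α → ℝ) :
    Ep p (insert i U) F = p * Ep p U (fun W => F (insert i W)) + (1 - p) * Ep p U F := by
  unfold Ep
  rw [sum_powerset_insert h, add_comm, mul_sum, mul_sum]
  congr 1
  · refine sum_congr rfl fun W hW => ?_
    have hi : i ∉ W := fun h' => h (mem_powerset.1 hW h')
    have h1 : insert i U \ insert i W = U \ W := by
      ext x
      simp only [mem_sdiff, mem_insert]
      constructor
      · rintro ⟨h2 | h2, h3⟩
        · exact absurd (Or.inl h2) h3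
        · exact ⟨h2, fun h4 => h3 (Or.inr h4)⟩
      · rintro ⟨h2, h3⟩
        refine ⟨Or.inr h2, ?_⟩
        rintro (h4 | h4)
        · exact h (h4 ▸ h2)
        · exact h3 h4
    unfold wt
    rw [h1, card_insert_of_notMem hi, pow_succ]
    ring
  · refine sum_congr rfl fun W hW => ?_
    have hi : i ∉ W := fun h' => h (mem_powerset.1 hW h')
    unfold wt
    rw [insert_sdiff_of_notMem _ hi, card_insert_of_notMem (by simp [h]), pow_succ]
    ring

theorem Ep_congr {p : ℝ} {U : Finset α} {F G : Finset α → ℝ} (h : ∀ W ⊆ U, F W = G W) :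
    Ep p U F = Ep p U G :=
  sum_congr rfl fun W hW => by rw [h W (mem_powerset.1 hW)]

theorem wt_nonneg {p : ℝ} (h0 : 0 ≤ p) (h1 : p ≤ 1) (U W : Finset α) : 0 ≤ wt p U W :=
  mul_nonneg (pow_nonneg h0 _) (pow_nonneg (by linarith) _)

theorem Ep_mono {p : ℝ} (h0 : 0 ≤ p) (h1 : p ≤ 1) {U : Finset α} {F G : Finset α → ℝ}
    (h : ∀ W ⊆ U, F W ≤ G W) : Ep p U F ≤ Ep p U G :=
  sum_le_sum fun W hW => mul_le_mul_of_nonneg_left (h W (mem_powerset.1 hW)) (wt_nonneg h0 h1 U W)

theorem Ep_add (p : ℝ) (U : Finset α) (F G : Finset α → ℝ) :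
    Ep p U (fun W => F W + G W) = Ep p U F + Ep p U G := by
  simp only [Ep, mul_add, sum_add_distrib]

theorem Ep_sub (p : ℝ) (U : Finset α) (F G : Finset α → ℝ) :
    Ep p U (fun W => F W - G W) = Ep p U F - Ep p U G := by
  simp only [Ep, mul_sub, sum_sub_distrib]

theorem Ep_smul (p : ℝ) (U : Finset α) (c : ℝ) (F : Finset α → ℝ) :
    Ep p U (fun W => c * F W) = c * Ep p U F := by
  simp only [Ep, mul_sum]
  exact sum_congr rfl fun W _ => by ring

theorem Ep_sum {ι : Type} (p : ℝ) (U : Finset α) (s : Finset ι) (F : ι → Finset α → ℝ) :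
    Ep p U (fun W => ∑ j ∈ s, F j W) = ∑ j ∈ s, Ep p U (F j) := by
  simp only [Ep, mul_sum]
  exact sum_comm

theorem Ep_one (p : ℝ) (U : Finset α) : Ep p U (fun _ => 1) = 1 := by
  induction U using Finset.induction with
  | empty => simp [Ep_empty]
  | insert i U hi ih => rw [Ep_insert p hi, ih]; ring

theorem Ep_const (p : ℝ) (U : Finset α) (c : ℝ) : Ep p U (fun _ => c) = c := by
  have h := Ep_smul p U c (fun _ => 1)
  rw [Ep_one] at h
  simpa using h

theorem Ep_nonneg {p : ℝ} (h0 : 0 ≤ p) (h1 : p ≤ 1) {U : Finset α} {F : Finset α → ℝ}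
    (h : ∀ W ⊆ U, 0 ≤ F W) : 0 ≤ Ep p U F := by
  have := Ep_mono h0 h1 (F := fun _ => 0) h
  rwa [Ep_const] at this

theorem Ep_cs {p : ℝ} (h0 : 0 ≤ p) (h1 : p ≤ 1) (U : Finset α) (F G : Finset α → ℝ) :
    Ep p U (fun W => F W * G W) ^ 2 ≤
      Ep p U (fun W => F W ^ 2) * Ep p U (fun W => G W ^ 2) := by
  unfold Ep
  have h := sum_mul_sq_le_sq_mul_sq U.powerset (fun W => Real.sqrt (wt p U W) * F W)
    (fun W => Real.sqrt (wt p U W) * G W)
  have hs : ∀ W, Real.sqrt (wt p U W) * Real.sqrt (wt p U W) = wt p U W :=
    fun W => Real.mul_self_sqrt (wt_nonneg h0 h1 U W)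
  calc (∑ W ∈ U.powerset, wt p U W * (F W * G W)) ^ 2
      = (∑ W ∈ U.powerset, Real.sqrt (wt p U W) * F W * (Real.sqrt (wt p U W) * G W)) ^ 2 := by
        congr 1
        exact sum_congr rfl fun W _ => by linear_combination (-(F W * G W)) * hs W
    _ ≤ _ := h
    _ = _ := by
        congr 1
        · exact sum_congr rfl fun W _ => by linear_combination (F W ^ 2) * hs W
        · exact sum_congr rfl fun W _ => by linear_combination (G W ^ 2) * hs W

theorem chi_insert_self (p : ℝ) (i : α) (W : Finset α) : chi p i (insert i W) = (1 - p) / sg p := by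
  simp [chi]

theorem chi_notMem (p : ℝ) {i : α} {W : Finset α} (h : i ∉ W) : chi p i W = -p / sg p := by
  simp [chi, h]

theorem chi_insert_ne (p : ℝ) {i j : α} (h : j ≠ i) (W : Finset α) :
    chi p j (insert i W) = chi p j W := by
  simp [chi, h]

theorem X_insert_W (p : ℝ) {i : α} {T : Finset α} (h : i ∉ T) (W : Finset α) :
    X p T (insert i W) = X p T W :=
  prod_congr rfl fun j hj => chi_insert_ne p (by
    rintro rfl
    exact h hj) W

theorem X_insert (p : ℝ) {i : α} {T : Finset α} (h : i ∉ T) (W : Finset α) :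
    X p (insert i T) W = chi p i W * X p T W := prod_insert h

theorem X_erase_W (p : ℝ) {i : α} {T : Finset α} (h : i ∉ T) (W : Finset α) :
    X p T (W.erase i) = X p T W :=
  prod_congr rfl fun j hj => by
    have : j ≠ i := by
      rintro rfl
      exact h hj
    simp [chi, this]

theorem ev_insert (p : ℝ) {i : α} {U : Finset α} (h : i ∉ U) (a : Finset α → ℝ) (W : Finset α) :
    ev p (insert i U) a W = ev p U a W + chi p i W * ev p U (fun T => a (insert i T)) W := by
  unfold ev
  rw [sum_powerset_insert h, mul_sum]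
  congr 1
  refine sum_congr rfl fun T hT => ?_
  have hi : i ∉ T := fun h' => h (mem_powerset.1 hT h')
  rw [X_insert p hi]
  ring

theorem ev_insert_W (p : ℝ) {i : α} {U : Finset α} (h : i ∉ U) (a : Finset α → ℝ)
    (W : Finset α) : ev p U a (insert i W) = ev p U a W :=
  sum_congr rfl fun T hT => by
    rw [X_insert_W p (fun h' => h (mem_powerset.1 hT h'))]

/-- Parseval for functions given by coefficients -/
theorem Ep_ev_ev {p : ℝ} (h0 : 0 < p) (h1 : p < 1) (U : Finset α) (a b : Finset α → ℝ) :
    Ep p U (fun W => ev p U a W * ev p U b W) = ∑ T ∈ U.powerset, a T * b T := by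
  induction U using Finset.induction generalizing a b with
  | empty => simp [Ep_empty, ev, X]
  | insert i U hi ih =>
    rw [Ep_insert p hi, sum_powerset_insert hi, ← ih a b,
      ← ih (fun T => a (insert i T)) (fun T => b (insert i T))]
    have hs := sg_sq h0.le h1.le
    have hs0 := (sg_pos h0 h1).ne'
    have e1 : Ep p U (fun W => ev p (insert i U) a (insert i W) *
        ev p (insert i U) b (insert i W)) =
        Ep p U (fun W => ev p U a W * ev p U b W) +
        ((1 - p) / sg p) * Ep p U (fun W => ev p U a W * ev p U (fun T => b (insert i T)) W +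
          ev p U (fun T => a (insert i T)) W * ev p U b W) +
        ((1 - p) / sg p) ^ 2 * Ep p U (fun W => ev p U (fun T => a (insert i T)) W *
          ev p U (fun T => b (insert i T)) W) := by
      rw [← Ep_smul, ← Ep_smul, ← Ep_add, ← Ep_add]
      refine Ep_congr fun W hW => ?_
      rw [ev_insert p hi, ev_insert p hi, chi_insert_self, ev_insert_W p hi, ev_insert_W p hi,
        ev_insert_W p hi, ev_insert_W p hi]
      ring
    have e2 : Ep p U (fun W => ev p (insert i U) a W * ev p (insert i U) b W) =
        Ep p U (fun W => ev p U a W * ev p U b W) +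
        (-p / sg p) * Ep p U (fun W => ev p U a W * ev p U (fun T => b (insert i T)) W +
          ev p U (fun T => a (insert i T)) W * ev p U b W) +
        (-p / sg p) ^ 2 * Ep p U (fun W => ev p U (fun T => a (insert i T)) W *
          ev p U (fun T => b (insert i T)) W) := by
      rw [← Ep_smul, ← Ep_smul, ← Ep_add, ← Ep_add]
      refine Ep_congr fun W hW => ?_
      rw [ev_insert p hi, ev_insert p hi, chi_notMem p (fun h' => hi (hW h'))]
      ring
    rw [e1, e2]
    have hc : p * ((1 - p) / sg p) ^ 2 + (1 - p) * (-p / sg p) ^ 2 = 1 := by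
      have : p * ((1 - p) / sg p) ^ 2 + (1 - p) * (-p / sg p) ^ 2 = p * (1 - p) / sg p ^ 2 := by
        field_simp
        ring
      rw [this, hs, div_self]
      exact (mul_pos h0 (by linarith)).ne'
    have hd : p * ((1 - p) / sg p) + (1 - p) * (-p / sg p) = 0 := by
      field_simp
      ring
    linear_combination
      (Ep p U (fun W => ev p U (fun T => a (insert i T)) W *
          ev p U (fun T => b (insert i T)) W)) * hc +
      (Ep p U (fun W => ev p U a W * ev p U (fun T => b (insert i T)) W +
          ev p U (fun T => a (insert i T)) W * ev p U b W)) * hd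

/-- Fourier expansion -/
theorem ev_co {p : ℝ} (h0 : 0 < p) (h1 : p < 1) (U : Finset α) (f : Finset α → ℝ)
    {W : Finset α} (hW : W ⊆ U) : ev p U (co p U f) W = f W := by
  induction U using Finset.induction generalizing f W with
  | empty =>
    rw [subset_empty.1 hW]
    simp [ev, co, Ep_empty, X]
  | insert i U hi ih =>
    have hs := sg_sq h0.le h1.le
    have hs0 := (sg_pos h0 h1).ne'
    have c0 : ∀ T ∈ U.powerset, co p (insert i U) f T =
        p * co p U (fun W => f (insert i W)) T + (1 - p) * co p U f T := by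
      intro T hT
      have hiT : i ∉ T := fun h' => hi (mem_powerset.1 hT h')
      unfold co
      rw [Ep_insert p hi]
      simp only [X_insert_W p hiT]
    have c1 : ∀ T ∈ U.powerset, co p (insert i U) f (insert i T) =
        sg p * (co p U (fun W => f (insert i W)) T - co p U f T) := by
      intro T hT
      have hiT : i ∉ T := fun h' => hi (mem_powerset.1 hT h')
      unfold co
      rw [Ep_insert p hi]
      have e1 : Ep p U (fun W => f (insert i W) * X p (insert i T) (insert i W)) =
          ((1 - p) / sg p) * Ep p U (fun W => f (insert i W) * X p T W) := by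
        rw [← Ep_smul]
        refine Ep_congr fun W hW => ?_
        rw [X_insert p hiT, chi_insert_self, X_insert_W p hiT]
        ring
      have e2 : Ep p U (fun W => f W * X p (insert i T) W) =
          (-p / sg p) * Ep p U (fun W => f W * X p T W) := by
        rw [← Ep_smul]
        refine Ep_congr fun W hW => ?_
        rw [X_insert p hiT, chi_notMem p (fun h' => hi (hW h'))]
        ring
      rw [e1, e2]
      field_simp
      rw [hs]
      ring
    have key : ∀ V ⊆ U, ∀ x : ℝ, ev p U (co p (insert i U) f) V +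
        (x - p) / sg p * ev p U (fun T => co p (insert i U) f (insert i T)) V =
        x * f (insert i V) + (1 - x) * f V := by
      intro V hV x
      have e1 : ev p U (co p (insert i U) f) V =
          p * f (insert i V) + (1 - p) * f V := by
        rw [← ih (fun W => f (insert i W)) hV, ← ih f hV]
        unfold ev
        rw [mul_sum, mul_sum, ← sum_add_distrib]
        refine sum_congr rfl fun T hT => ?_
        rw [c0 T hT]
        ring
      have e2 : ev p U (fun T => co p (insert i U) f (insert i T)) V =
          sg p * (f (insert i V) - f V) := by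
        rw [← ih (fun W => f (insert i W)) hV, ← ih f hV]
        unfold ev
        rw [← sum_sub_distrib, mul_sum]
        refine sum_congr rfl fun T hT => ?_
        show co p (insert i U) f (insert i T) * X p T V = _
        rw [c1 T hT]
        ring
      rw [e1, e2]
      field_simp
      ring
    by_cases hiW : i ∈ W
    · have hV : W.erase i ⊆ U := by
        intro x hx
        rw [mem_erase] at hx
        exact (mem_insert.1 (hW hx.2)).resolve_left hx.1
      have hWV : W = insert i (W.erase i) := (insert_erase hiW).symm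
      have := key (W.erase i) hV 1
      rw [ev_insert p hi, hWV, ev_insert_W p hi, ev_insert_W p hi, chi_insert_self, this]
      ring
    · have hV : W ⊆ U := by
        intro x hx
        refine (mem_insert.1 (hW hx)).resolve_left ?_
        rintro rfl
        exact hiW hx
      have := key W hV 0
      rw [ev_insert p hi, chi_notMem p hiW]
      rw [zero_sub] at this
      rw [this]
      ring

/-- Parseval -/
theorem parseval {p : ℝ} (h0 : 0 < p) (h1 : p < 1) (U : Finset α) (f g : Finset α → ℝ) :
    Ep p U (fun W => f W * g W) = ∑ T ∈ U.powerset, co p U f T * co p U g T := by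
  rw [← Ep_ev_ev h0 h1]
  exact Ep_congr fun W hW => by rw [ev_co h0 h1 U f hW, ev_co h0 h1 U g hW]

/-- the coefficients of a function given by coefficients -/
theorem co_ev {p : ℝ} (h0 : 0 < p) (h1 : p < 1) (U : Finset α) (a : Finset α → ℝ)
    {T : Finset α} (hT : T ⊆ U) : co p U (ev p U a) T = a T := by
  have h := Ep_ev_ev h0 h1 U a (fun S => if S = T then 1 else 0)
  rw [sum_eq_single_of_mem T (mem_powerset.2 hT) (by
    intro S _ hS
    rw [if_neg hS, mul_zero]), if_pos rfl, mul_one] at h
  rw [← h]
  unfold co
  refine Ep_congr fun W hW => ?_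
  congr 1
  unfold ev
  rw [sum_eq_single_of_mem T (mem_powerset.2 hT) (by
    intro S _ hS
    simp [hS])]
  simp

end Pool.Agent.Lib.AMP
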