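import Pool.Agent.Lib.MP_dcb6ed_co_AMP.Num
import Pool.Agent.Lib.MP_6d56f7_co_FR.ListP

/-!
# Project AMP (MP_dcb6ed_co): amplification of the probability of an edge-colouring
-/

set_option autoImplicit false

namespace Pool.Agent.Lib.AMP

open Finset Filter Topology Pool.Agent.Lib.FR

/-- the derivative of `Pc` -/
noncomputable def Pd (n : ℕ) (p : ℝ) : ℝ :=
  ∑ i : Edge (Fin (2 * n)) × Fin (2 * n - 1),
    Ep p univ (dl i (fC (V := Fin (2 * n)) (C := Fin (2 * n - 1))))

theorem Pc_deriv (n : ℕ) (p : ℝ) : HasDerivAt (Pc n) (Pd n p) p := by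
  have h : Pc n = fun q => Ep q univ (fC (V := Fin (2 * n)) (C := Fin (2 * n - 1))) :=
    funext fun q => Pc_eq n q
  rw [h]
  exact russo p univ _

theorem Pd_nonneg (n : ℕ) {p : ℝ} (h0 : 0 ≤ p) (h1 : p ≤ 1) : 0 ≤ Pd n p :=
  sum_nonneg fun i _ => Ep_nonneg h0 h1 fun W _ => by
    rcases dl_zo fC_inc i W with b | b <;> rw [b]
    norm_num

theorem Pc_mono (n : ℕ) {p q : ℝ} (h0 : 0 ≤ p) (hpq : p ≤ q) (h1 : q ≤ 1) :
    Pc n p ≤ Pc n q := by
  have hm : MonotoneOn (Pc n) (Set.Icc 0 1) := by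
    apply monotoneOn_of_deriv_nonneg (convex_Icc 0 1)
    · intro t _
      exact (Pc_deriv n t).continuousAt.continuousWithinAt
    · intro t _
      exact (Pc_deriv n t).differentiableAt.differentiableWithinAt
    · intro t ht
      rw [interior_Icc] at ht
      rw [(Pc_deriv n t).deriv]
      exact Pd_nonneg n ht.1.le ht.2.le
  exact hm ⟨h0, hpq.trans h1⟩ ⟨h0.trans hpq, h1⟩ hpq

theorem Pc_nonneg (n : ℕ) {p : ℝ} (h0 : 0 ≤ p) (h1 : p ≤ 1) : 0 ≤ Pc n p := by
  rw [Pc_eq]
  refine Ep_nonneg h0 h1 fun W _ => ?_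
  rcases (fC_inc (V := Fin (2 * n)) (C := Fin (2 * n - 1))).zo W with b | b <;> rw [b]
  norm_num

theorem Pc_le_one (n : ℕ) {p : ℝ} (h0 : 0 ≤ p) (h1 : p ≤ 1) : Pc n p ≤ 1 := by
  rw [Pc_eq]
  refine le_trans (Ep_mono h0 h1 (G := fun _ => 1) fun W _ => ?_) (Ep_const p univ 1).le
  rcases (fC_inc (V := Fin (2 * n)) (C := Fin (2 * n - 1))).zo W with b | b <;> rw [b]
  norm_num

/-- the differential inequality -/
theorem diff_ineq {n k : ℕ} {p : ℝ} (hz : Siz (Fin (2 * n)) (Fin (2 * n - 1)) n k p)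
    (h : 32 ^ k * (4 ^ k * (Real.sqrt (2 ^ k * (k / (n * p))) + k * p)) ≤ (1 / (k : ℝ)) ^ 3) :
    Pc n p * (1 - Pc n p) ≤ 2 / k * (p * Pd n p) +
      2 ^ (4 * k ^ 3) * (4 * p) * (1 + 8 * (n * p)) ^ (3 * k) := by
  classical
  have hp0 := hz.p0
  have hp1 : p < 1 := by linarith [hz.p1]
  have hk : (0 : ℝ) < k := by exact_mod_cast hz.k0
  have h2 := main_ineq hp0 hp1 (U := univ) (fC_inc (V := Fin (2 * n)) (C := Fin (2 * n - 1))) k
    hz.k0 (good (V := Fin (2 * n)) (C := Fin (2 * n - 1))) (fun S T h hT => good_mono h hT)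
    (β := 4 ^ k * (Real.sqrt (2 ^ k * (k / (n * p))) + k * p)) (z := 1 / k)
    (ρ := 2 ^ (4 * k ^ 3) * (4 * p) * (1 + 8 * (n * p)) ^ (3 * k)) (by positivity)
    (fun S _ hSn hSk hS => beta_le hz fC_inc fC_map hSn hSk hS) (by positivity) h
    (rho_le hz fC_inc)
  rw [← Pc_eq] at h2
  have hs := sg_sq hp0.le hp1.le
  have h3 : sg p ^ 2 * ∑ i, Ep p univ (dl i (fC (V := Fin (2 * n)) (C := Fin (2 * n - 1)))) ≤
      p * Pd n p := by
    refine mul_le_mul_of_nonneg_right ?_ (Pd_nonneg n hp0.le hp1.le)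
    rw [hs]
    nlinarith
  have h4 : (1 / (k : ℝ) + 1 / k) *
      (sg p ^ 2 * ∑ i, Ep p univ (dl i (fC (V := Fin (2 * n)) (C := Fin (2 * n - 1))))) ≤
      2 / k * (p * Pd n p) := by
    have e1 : 1 / (k : ℝ) + 1 / k = 2 / k := by ring
    rw [e1]
    exact mul_le_mul_of_nonneg_left h3 (by positivity)
  linarith

/-- eventual facts on the number `log log n` -/
theorem ev_num : ∀ᶠ x : ℝ in atTop, 40 ≤ x ∧ 32 * x ^ 3 ≤ Real.exp x ∧
    4000 ≤ Real.exp (17 / 200 * x) := by
  have h1 := (Real.tendsto_pow_mul_exp_neg_atTop_nhds_zero 3).eventually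
    (gt_mem_nhds (show (0 : ℝ) < 1 / 32 by norm_num))
  have h2 : Tendsto (fun x : ℝ => Real.exp (17 / 200 * x)) atTop atTop :=
    Real.tendsto_exp_atTop.comp (tendsto_id.const_mul_atTop (by norm_num))
  filter_upwards [eventually_ge_atTop 40, h1, h2.eventually_ge_atTop 4000] with x h3 h4 h5
  refine ⟨h3, ?_, h5⟩
  rw [Real.exp_neg, ← div_eq_mul_inv, div_lt_iff₀ (Real.exp_pos _)] at h4
  linarith

theorem tendsto_loglog :
    Tendsto (fun n : ℕ => Real.log (Real.log n)) atTop atTop :=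
  Real.tendsto_log_atTop.comp (Real.tendsto_log_atTop.comp tendsto_natCast_atTop_atTop)

/-- the random lists are not colourable below half of the threshold -/
theorem low {n : ℕ} (hn : 2 ≤ n) {p : ℝ} (h0 : 0 ≤ p) (hp : p ≤ Real.log n / (2 * n))
    (hl : Real.log n / n ≤ 1 / 6) : Pc n p ≤ Real.exp (-Real.sqrt n) := by
  classical
  have hn0 : (0 : ℝ) < n := by positivity
  have hn2 : (2 : ℝ) ≤ n := by exact_mod_cast hn
  have hp' : p ≤ (1 - 1 / 2) * Real.log n / n := by
    refine hp.trans (le_of_eq ?_)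
    field_simp
    norm_num
  have h1 := ListP.one_sub_pow_le (e := 1 / 2) (by norm_num) (by norm_num) hn h0 hp'
    (by linarith)
  have hp1 : p ≤ 1 / 2 := by
    refine hp'.trans ?_
    have : (1 - 1 / 2) * Real.log n / n = (1 / 2) * (Real.log n / n) := by ring
    rw [this]
    linarith
  have h2 : Pc n p ≤ listProb n p (fun L => ∀ e, (L e).Nonempty) := by
    unfold Pc listProb
    refine sum_le_sum fun L _ => ?_
    have hnn : 0 ≤ ∏ e, ∏ c, (if c ∈ L e then p else 1 - p) :=
      prod_nonneg fun e _ => prod_nonneg fun c _ => by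
        split_ifs
        · exact h0
        · linarith
    split_ifs with c1 c2
    · exact le_rfl
    · exfalso
      apply c2
      obtain ⟨φ, hφ, -⟩ := c1
      exact fun e => ⟨φ e, hφ e⟩
    · exact hnn
    · exact le_rfl
  rw [ListP.prob_nonempty] at h2
  set a : ℝ := (1 - p) ^ (2 * n - 1) with ha
  have ha1 : a ≤ 1 := pow_le_one₀ (by linarith) (by linarith)
  have h5 : (1 - a) ^ (n * (2 * n - 1)) ≤ Real.exp (-a) ^ (n * (2 * n - 1)) := by
    apply pow_le_pow_left₀ (by linarith)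
    have := Real.add_one_le_exp (-a)
    linarith
  refine h2.trans (h5.trans ?_)
  rw [← Real.exp_nat_mul]
  apply Real.exp_le_exp.2
  have h6 : (n : ℝ) * n ≤ ((n * (2 * n - 1) : ℕ) : ℝ) := by
    have : n * n ≤ n * (2 * n - 1) := Nat.mul_le_mul_left n (by omega)
    exact_mod_cast this
  have h7 : Real.sqrt n = (n : ℝ) * n * (n : ℝ) ^ (-(2 - 1 / 2) : ℝ) := by
    rw [Real.sqrt_eq_rpow]
    have : (n : ℝ) * n = (n : ℝ) ^ (2 : ℝ) := by
      rw [Real.rpow_two]
      ring
    rw [this, ← Real.rpow_add hn0]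
    congr 1
    norm_num
  have h8 : 0 < (n : ℝ) ^ (-(2 - 1 / 2) : ℝ) := Real.rpow_pos_of_pos hn0 _
  have h9 : Real.sqrt n ≤ ((n * (2 * n - 1) : ℕ) : ℝ) * a := by
    rw [h7]
    exact mul_le_mul h6 h1 h8.le (by positivity)
  linarith

/-- the threshold interval is short -/
theorem window : ∀ᶠ n : ℕ in atTop, ∀ δ : ℝ, Real.log n ^ (-(1 / 1000) : ℝ) ≤ δ → δ ≤ 1 / 2 →
    ∀ p : ℝ, 0 ≤ p → p ≤ Real.log n ^ 10 / n → δ ≤ Pc n p →
    1 - δ ≤ Pc n ((1 + 1000 * Real.log (1 / δ) / Real.log (Real.log n)) * p) := by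
  have t1 : Tendsto (fun n : ℕ => Real.log (n : ℝ) / n) atTop (𝓝 0) := by
    have h := (Real.isLittleO_log_id_atTop).tendsto_div_nhds_zero
    exact h.comp tendsto_natCast_atTop_atTop
  have ev1 : ∀ᶠ n : ℕ in atTop, Real.log (n : ℝ) / n < 1 / 6 :=
    t1.eventually (gt_mem_nhds (show (0 : ℝ) < 1 / 6 by norm_num))
  filter_upwards [ev1, tendsto_loglog.eventually ev_num,
    eventually_ge_atTop 3] with n hl hx hn3 δ hδ1 hδh p hp0 hp2 hP
  set x : ℝ := Real.log (Real.log n) with hxdef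
  obtain ⟨h40, h3, h4⟩ := hx
  have hn0 : (0 : ℝ) < n := by positivity
  have hn3' : (3 : ℝ) ≤ n := by exact_mod_cast hn3
  have hlog0 : 0 < Real.log n := Real.log_pos (by linarith)
  have hex : Real.exp x = Real.log n := Real.exp_log hlog0
  have hen : Real.exp (Real.exp x) = n := by rw [hex, Real.exp_log hn0]
  have hx0 : 0 < x := by linarith
  have hex1 : x + 1 ≤ Real.exp x := Real.add_one_le_exp x
  have hx2 : (1600 : ℝ) ≤ x ^ 2 := by nlinarith
  have hx3 : 1600 * x ≤ x ^ 3 := by nlinarith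
  have hbig : 4 * x + 8 ≤ Real.exp x := by linarith
  rw [Real.rpow_def_of_pos hlog0] at hδ1
  have hδ0 : 0 < δ := lt_of_lt_of_le (Real.exp_pos _) hδ1
  have hld : Real.log δ < 0 := Real.log_neg hδ0 (by linarith)
  have hld2 : -(x / 1000) ≤ Real.log δ := by
    rw [Real.le_log_iff_exp_le hδ0]
    refine le_trans (le_of_eq ?_) hδ1
    congr 1
    rw [← hxdef]
    ring
  set ε : ℝ := 1000 * Real.log (1 / δ) / x with hεdef
  have hεx : ε * x = -(1000 * Real.log δ) := by
    rw [hεdef, div_mul_cancel₀ _ hx0.ne', one_div, Real.log_inv]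
    ring
  have hε : 0 < ε := by
    have h5 : 0 < ε * x := by linarith
    exact (mul_pos_iff_of_pos_right hx0).1 h5
  have hε1 : ε ≤ 1 := by
    have h5 : ε * x ≤ 1 * x := by linarith
    exact le_of_mul_le_mul_right h5 hx0
  have hδe : δ = Real.exp (-(ε / 1000 * x)) := by
    have h5 : -(ε / 1000 * x) = Real.log δ := by linarith
    rw [h5, Real.exp_log hδ0]
  have hδx : Real.exp (-x) ≤ δ := by
    rw [hδe]
    apply Real.exp_le_exp.2
    nlinarith
  by_contra hcon
  push Not at hcon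
  -- `p` is not below half of the threshold
  have hplow : Real.log n / (2 * n) ≤ p := by
    by_contra hc
    push Not at hc
    have h5 := low (by omega) hp0 hc.le hl.le
    have h6 : Real.exp (-Real.sqrt n) < Real.exp (-x) := by
      apply Real.exp_lt_exp.2
      have h7 : Real.exp x < Real.sqrt n := by
        apply Real.lt_sqrt_of_sq_lt
        rw [← hen, ← Real.exp_nat_mul]
        apply Real.exp_lt_exp.2
        push_cast
        linarith
      linarith
    linarith
  have hb : (1 + ε) * p ≤ Real.exp (11 * x) / n := by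
    have e1 : Real.exp (11 * x) = Real.exp x * Real.log n ^ 10 := by
      rw [← hex, ← Real.exp_nat_mul, ← Real.exp_add]
      congr 1
      push_cast
      ring
    rw [e1, mul_div_assoc]
    have e2 : 0 ≤ Real.log n ^ 10 / n := by positivity
    exact mul_le_mul (by linarith) hp2 hp0 (Real.exp_pos _).le
  set k : ℕ := ⌊x / 20⌋₊ with hk
  have hk1 : (k : ℝ) ≤ x / 20 := Nat.floor_le (by positivity)
  have hk2 : x / 20 < k + 1 := Nat.lt_floor_add_one _
  have hppos : 0 < p := lt_of_lt_of_le (by positivity) hplow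
  have hpp : p ≤ (1 + ε) * p := by nlinarith
  have hpar : ∀ t ∈ Set.Icc p ((1 + ε) * p), _ := fun t ht =>
    par hen hk1 hk2 h40 h3 h4 (p := t) (by rw [hex]; exact hplow.trans ht.1) (ht.2.trans hb)
  have hb1 : (1 + ε) * p ≤ 1 := by
    have := (hpar ((1 + ε) * p) ⟨hpp, le_rfl⟩).1.p1
    have := (hpar ((1 + ε) * p) ⟨hpp, le_rfl⟩).1.p0
    linarith
  have hk0 : (0 : ℝ) < k := by linarith
  have hlow : ∀ t ∈ Set.Icc p ((1 + ε) * p), δ ≤ Pc n t := fun t ht =>
    hP.trans (Pc_mono n hp0 ht.1 (ht.2.trans hb1))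
  have hup : ∀ t ∈ Set.Icc p ((1 + ε) * p), Pc n t ≤ 1 - δ := fun t ht =>
    (Pc_mono n (hp0.trans ht.1) ht.2 hb1).trans hcon.le
  have hin : ∀ t ∈ Set.Icc p ((1 + ε) * p),
      (k : ℝ) / 4 * (Pc n t * (1 - Pc n t)) ≤ t * Pd n t := by
    intro t ht
    obtain ⟨c1, c2, c3⟩ := hpar t ht
    have h5 := diff_ineq c1 c2
    have h6 := hlow t ht
    have h7 := hup t ht
    -- the error term is at most half of the variance
    have h8 : Real.exp (-(Real.exp x / 2)) ≤ δ / 4 := by
      have e1 : Real.exp (-(Real.exp x / 2)) ≤ Real.exp (-x) * Real.exp (-2) := by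
        rw [← Real.exp_add]
        apply Real.exp_le_exp.2
        linarith
      have e2 : Real.exp (-2) ≤ 1 / 4 := by
        rw [Real.exp_neg, inv_eq_one_div]
        apply one_div_le_one_div_of_le (by norm_num)
        have := two_pow_le 2
        norm_num at this
        exact this
      have e3 := Real.exp_pos (-x)
      nlinarith
    have h9 : δ / 2 ≤ Pc n t * (1 - Pc n t) := by nlinarith
    have h10 : Pc n t * (1 - Pc n t) / 2 ≤ 2 / k * (t * Pd n t) := by linarith
    have h11 : (k : ℝ) / 2 * (Pc n t * (1 - Pc n t) / 2) ≤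
        (k : ℝ) / 2 * (2 / k * (t * Pd n t)) := mul_le_mul_of_nonneg_left h10 (by positivity)
    have h12 : (k : ℝ) / 2 * (2 / k * (t * Pd n t)) = t * Pd n t := by
      field_simp
    linarith
  have hfin := logit hppos hpp hδ0 (fun t _ => Pc_deriv n t) hlow hup hin
  have e1 : Real.log ((1 + ε) * p) - Real.log p = Real.log (1 + ε) := by
    rw [Real.log_mul (by linarith) hppos.ne']
    ring
  have e2 : ε / 2 ≤ Real.log (1 + ε) := by
    have e3 := Real.one_sub_inv_le_log_of_pos (show 0 < 1 + ε by linarith)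
    refine le_trans ?_ e3
    have e4 : 1 - (1 + ε)⁻¹ = ε / (1 + ε) := by
      field_simp
      ring
    rw [e4]
    exact div_le_div_of_nonneg_left hε.le (by linarith) (by linarith)
  have e3 : Real.log δ = -(ε / 1000 * x) := by rw [hδe, Real.log_exp]
  rw [e1, e3] at hfin
  have e4 : x / 160 ≤ (k : ℝ) / 4 := by linarith
  have e5 : x / 160 * (ε / 2) ≤ (k : ℝ) / 4 * Real.log (1 + ε) :=
    mul_le_mul e4 e2 (by positivity) (by positivity)
  have e6 : 0 < ε * x := by positivity
  nlinarith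

/-- a small probability of colourability is enough -/
theorem equiv :
    (∀ ε : ℝ, 0 < ε → ∀ p : ℕ → ℝ,
      (∀ᶠ n : ℕ in atTop, (1 + ε) * Real.log n / n ≤ p n ∧ p n ≤ 1) →
      Tendsto (fun n => Pc n (p n)) atTop (𝓝 1)) ↔
    ∀ ε : ℝ, 0 < ε → ∀ᶠ n : ℕ in atTop,
      Real.log n ^ (-(ε / 1000)) ≤ Pc n ((1 + ε) * Real.log n / n) := by
  have tl : Tendsto (fun n : ℕ => Real.log (n : ℝ)) atTop atTop :=
    Real.tendsto_log_atTop.comp tendsto_natCast_atTop_atTop
  have tz : ∀ c : ℝ, 0 < c → Tendsto (fun n : ℕ => Real.log (n : ℝ) ^ (-c)) atTop (𝓝 0) :=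
    fun c hc => (tendsto_rpow_neg_atTop hc).comp tl
  have t1 : Tendsto (fun n : ℕ => Real.log (n : ℝ) / n) atTop (𝓝 0) := by
    have h := (Real.isLittleO_log_id_atTop).tendsto_div_nhds_zero
    exact h.comp tendsto_natCast_atTop_atTop
  have small : ∀ c : ℝ, ∀ᶠ n : ℕ in atTop, c * Real.log n / n ≤ 1 := by
    intro c
    have t2 := t1.const_mul c
    rw [mul_zero] at t2
    have h := t2.eventually (gt_mem_nhds (show (0 : ℝ) < 1 by norm_num))
    filter_upwards [h] with n hn
    rw [mul_div_assoc]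
    exact hn.le
  constructor
  · intro H ε hε
    have h1 := H ε hε (fun n => (1 + ε) * Real.log n / n) (by
      filter_upwards [small (1 + ε)] with n hn
      exact ⟨le_rfl, hn⟩)
    have h2 := h1.eventually (lt_mem_nhds (show (1 / 2 : ℝ) < 1 by norm_num))
    have h3 := (tz (ε / 1000) (by positivity)).eventually
      (gt_mem_nhds (show (0 : ℝ) < 1 / 2 by norm_num))
    filter_upwards [h2, h3] with n h4 h5
    linarith
  · intro H ε hε p hp
    set e : ℝ := min (ε / 3) 1 with he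
    have he0 : 0 < e := lt_min (by positivity) one_pos
    have he1 : e ≤ 1 := min_le_right _ _
    have hee : e ≤ ε / 3 := min_le_left _ _
    have h1 := H e he0
    have hz := tz (e / 1000) (by positivity)
    have h3 : Tendsto (fun n : ℕ => 1 - Real.log (n : ℝ) ^ (-(e / 1000))) atTop (𝓝 1) := by
      have := hz.const_sub 1
      rwa [sub_zero] at this
    have hh := hz.eventually (gt_mem_nhds (show (0 : ℝ) < 1 / 2 by norm_num))
    refine tendsto_of_tendsto_of_tendsto_of_le_of_le' h3 tendsto_const_nhds ?_ ?_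
    · filter_upwards [h1, window, hp, tl.eventually_ge_atTop 3, eventually_ge_atTop 1, hh]
        with n a1 a2 a3 a4 a5 a6
      have hn0 : (0 : ℝ) < n := by positivity
      have hL : (0 : ℝ) < Real.log n := by linarith
      have hLL : 0 < Real.log (Real.log n) := Real.log_pos (by linarith)
      have b0 : Real.log (n : ℝ) ^ (-(1 / 1000) : ℝ) ≤ Real.log (n : ℝ) ^ (-(e / 1000)) :=
        Real.rpow_le_rpow_of_exponent_le (by linarith) (by linarith)
      have b1 : (1 + e) * Real.log n / n ≤ Real.log n ^ 10 / n := by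
        apply div_le_div_of_nonneg_right _ hn0.le
        have c1 : (1 + e) * Real.log n ≤ 2 * Real.log n :=
          mul_le_mul_of_nonneg_right (by linarith) hL.le
        have c2 : (2 : ℝ) * Real.log n ≤ Real.log n ^ 2 := by nlinarith
        have c3 : Real.log (n : ℝ) ^ 2 ≤ Real.log n ^ 10 :=
          pow_le_pow_right₀ (by linarith) (by norm_num)
        linarith
      have b3 := a2 _ b0 a6.le _ (by positivity) b1 a1
      have b5 : 1000 * Real.log (1 / Real.log (n : ℝ) ^ (-(e / 1000))) /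
          Real.log (Real.log n) = e := by
        rw [one_div, Real.log_inv, Real.log_rpow hL]
        field_simp
      rw [b5] at b3
      refine b3.trans (Pc_mono n (by positivity) ?_ a3.2)
      refine le_trans ?_ a3.1
      have b4 : (1 + e) * ((1 + e) * Real.log n / n) =
          ((1 + e) * (1 + e)) * Real.log n / n := by ring
      rw [b4]
      apply div_le_div_of_nonneg_right _ hn0.le
      apply mul_le_mul_of_nonneg_right _ hL.le
      nlinarith
    · filter_upwards [hp, tl.eventually_ge_atTop 2, eventually_ge_atTop 1] with n a3 a4 a5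
      have hn0 : (0 : ℝ) < n := by positivity
      have hL : (0 : ℝ) < Real.log n := by linarith
      refine Pc_le_one n (le_trans ?_ a3.1) a3.2
      positivity

end Pool.Agent.Lib.AMP
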