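import Pool.Agent.Lib.MP_dcb6ed_co_AMP.Bias

/-!
# Project AMP (MP_dcb6ed_co): hypercontractivity for `p`-random sets, with generalised influences
-/

set_option autoImplicit false

namespace Pool.Agent.Lib.AMP

open Finset

variable {α : Type} [DecidableEq α]

/-- weighted square sum of the coefficients above `S` -/
noncomputable def Qs (U : Finset α) (a : Finset α → ℝ) (S : Finset α) : ℝ :=
  ∑ T ∈ U.powerset, if S ⊆ T then 4 ^ T.card * a T ^ 2 else 0

/-- the bilinear bound -/
noncomputable def Gb (p : ℝ) (U : Finset α) (a b : Finset α → ℝ) : ℝ :=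
  ∑ S ∈ U.powerset, ((sg p ^ 2)⁻¹) ^ S.card * (Qs U a S * Qs U b S)

theorem Qs_nonneg (U : Finset α) (a : Finset α → ℝ) (S : Finset α) : 0 ≤ Qs U a S :=
  sum_nonneg fun T _ => by split_ifs <;> positivity

theorem Qs_insert {i : α} {U : Finset α} (hi : i ∉ U) (a : Finset α → ℝ) {S : Finset α}
    (hS : S ⊆ U) : Qs (insert i U) a S = Qs U a S + 4 * Qs U (fun T => a (insert i T)) S := by
  unfold Qs
  rw [sum_powerset_insert hi, mul_sum]
  congr 1
  refine sum_congr rfl fun T hT => ?_
  have hiT : i ∉ T := fun h' => hi (mem_powerset.1 hT h')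
  have hiS : i ∉ S := fun h' => hi (hS h')
  have h1 : S ⊆ insert i T ↔ S ⊆ T := subset_insert_iff_of_notMem hiS
  rw [card_insert_of_notMem hiT]
  by_cases h : S ⊆ T
  · rw [if_pos h, if_pos (h1.2 h)]
    ring
  · rw [if_neg h, if_neg (fun h' => h (h1.1 h'))]
    ring

theorem Qs_insert' {i : α} {U : Finset α} (hi : i ∉ U) (a : Finset α → ℝ) {S : Finset α}
    (hS : S ⊆ U) : Qs (insert i U) a (insert i S) = 4 * Qs U (fun T => a (insert i T)) S := by
  unfold Qs
  rw [sum_powerset_insert hi, mul_sum]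
  have hiS : i ∉ S := fun h' => hi (hS h')
  have h0 : ∑ T ∈ U.powerset, (if insert i S ⊆ T then (4 : ℝ) ^ T.card * a T ^ 2 else 0) = 0 :=
    sum_eq_zero fun T hT => by
      rw [if_neg]
      intro h'
      exact hi (mem_powerset.1 hT (h' (mem_insert_self _ _)))
  rw [h0, zero_add]
  refine sum_congr rfl fun T hT => ?_
  have hiT : i ∉ T := fun h' => hi (mem_powerset.1 hT h')
  rw [card_insert_of_notMem hiT]
  have h1 : insert i S ⊆ insert i T ↔ S ⊆ T := insert_subset_insert_iff hiS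
  by_cases h : S ⊆ T
  · rw [if_pos h, if_pos (h1.2 h)]
    ring
  · rw [if_neg h, if_neg (fun h' => h (h1.1 h'))]
    ring

/-- the one-variable step -/
theorem step1 {p s : ℝ} (h0 : 0 < p) (h1 : p < 1) (hs : s ^ 2 = p * (1 - p)) (hs0 : 0 < s)
    (A B C D : ℝ) :
    p * ((A + (1 - p) / s * B) ^ 2 * (C + (1 - p) / s * D) ^ 2) +
      (1 - p) * ((A + -p / s * B) ^ 2 * (C + -p / s * D) ^ 2) ≤
    A ^ 2 * C ^ 2 + 4 * (A ^ 2 * D ^ 2) + 4 * (B ^ 2 * C ^ 2) + 3 * (s ^ 2)⁻¹ * (B ^ 2 * D ^ 2) := by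
  have hq : 0 < p * (1 - p) := mul_pos h0 (by linarith)
  have hp1 : 1 - p ≠ 0 := by linarith
  set m : ℝ := (1 - 2 * p) / s with hm
  have hm2 : m ^ 2 = (s ^ 2)⁻¹ - 4 := by
    rw [hm, div_pow, hs]
    field_simp
    ring
  have e : p * ((A + (1 - p) / s * B) ^ 2 * (C + (1 - p) / s * D) ^ 2) +
      (1 - p) * ((A + -p / s * B) ^ 2 * (C + -p / s * D) ^ 2) =
      A ^ 2 * C ^ 2 + (A ^ 2 * D ^ 2 + B ^ 2 * C ^ 2 + 4 * (A * B * C * D)) +
      m * (2 * A * B * D ^ 2 + 2 * B ^ 2 * C * D) + ((s ^ 2)⁻¹ - 3) * (B ^ 2 * D ^ 2) := by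
    have h3 : p * ((1 - p) / s) ^ 2 + (1 - p) * (-p / s) ^ 2 = 1 := by
      have : p * ((1 - p) / s) ^ 2 + (1 - p) * (-p / s) ^ 2 = p * (1 - p) / s ^ 2 := by
        field_simp
        ring
      rw [this, hs, div_self hq.ne']
    have h2 : p * ((1 - p) / s) + (1 - p) * (-p / s) = 0 := by
      field_simp
      ring
    have h4 : p * ((1 - p) / s) ^ 3 + (1 - p) * (-p / s) ^ 3 = m := by
      have : p * ((1 - p) / s) ^ 3 + (1 - p) * (-p / s) ^ 3 =
          (p * (1 - p) / s ^ 2) * ((1 - 2 * p) / s) := by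
        field_simp
        ring
      rw [this, hs, div_self hq.ne', one_mul]
    have h5 : p * ((1 - p) / s) ^ 4 + (1 - p) * (-p / s) ^ 4 = (s ^ 2)⁻¹ - 3 := by
      have : p * ((1 - p) / s) ^ 4 + (1 - p) * (-p / s) ^ 4 =
          (p * (1 - p) / s ^ 2) * ((1 - 3 * (p * (1 - p))) / s ^ 2) := by
        field_simp
        ring
      rw [this, hs, div_self hq.ne', one_mul]
      field_simp
    linear_combination (A ^ 2 * D ^ 2 + B ^ 2 * C ^ 2 + 4 * (A * B * C * D)) * h3 +
      (2 * A ^ 2 * C * D + 2 * A * B * C ^ 2) * h2 +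
      (2 * A * B * D ^ 2 + 2 * B ^ 2 * C * D) * h4 + (B ^ 2 * D ^ 2) * h5
  rw [e]
  have hi : 0 < (s ^ 2)⁻¹ := by positivity
  nlinarith [sq_nonneg (A * D - B * C), sq_nonneg (A * D - m * (B * D)),
    sq_nonneg (B * C - m * (B * D)), sq_nonneg (B * D), hm2]

/-- hypercontractivity -/
theorem hyp {p : ℝ} (h0 : 0 < p) (h1 : p < 1) (U : Finset α) (a b : Finset α → ℝ) :
    Ep p U (fun W => ev p U a W ^ 2 * ev p U b W ^ 2) ≤ Gb p U a b := by
  induction U using Finset.induction generalizing a b with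
  | empty =>
    simp [Ep_empty, ev, X, Gb, Qs]
  | insert i U hi ih =>
    have hs := sg_sq h0.le h1.le
    have hs0 := sg_pos h0 h1
    set a1 : Finset α → ℝ := fun T => a (insert i T) with ha1
    set b1 : Finset α → ℝ := fun T => b (insert i T) with hb1
    have e1 : Ep p (insert i U) (fun W => ev p (insert i U) a W ^ 2 * ev p (insert i U) b W ^ 2) =
        Ep p U (fun W =>
          p * ((ev p U a W + (1 - p) / sg p * ev p U a1 W) ^ 2 *
            (ev p U b W + (1 - p) / sg p * ev p U b1 W) ^ 2) +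
          (1 - p) * ((ev p U a W + -p / sg p * ev p U a1 W) ^ 2 *
            (ev p U b W + -p / sg p * ev p U b1 W) ^ 2)) := by
      rw [Ep_insert p hi, Ep_add, Ep_smul, Ep_smul]
      congr 2
      · refine Ep_congr fun W hW => ?_
        rw [ev_insert p hi, ev_insert p hi, chi_insert_self, ev_insert_W p hi, ev_insert_W p hi,
          ev_insert_W p hi, ev_insert_W p hi]
      · refine Ep_congr fun W hW => ?_
        rw [ev_insert p hi, ev_insert p hi, chi_notMem p (fun h' => hi (hW h'))]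
    have e2 : Ep p U (fun W =>
          p * ((ev p U a W + (1 - p) / sg p * ev p U a1 W) ^ 2 *
            (ev p U b W + (1 - p) / sg p * ev p U b1 W) ^ 2) +
          (1 - p) * ((ev p U a W + -p / sg p * ev p U a1 W) ^ 2 *
            (ev p U b W + -p / sg p * ev p U b1 W) ^ 2)) ≤
        Ep p U (fun W => ev p U a W ^ 2 * ev p U b W ^ 2) +
        4 * Ep p U (fun W => ev p U a W ^ 2 * ev p U b1 W ^ 2) +
        4 * Ep p U (fun W => ev p U a1 W ^ 2 * ev p U b W ^ 2) +
        3 * (sg p ^ 2)⁻¹ * Ep p U (fun W => ev p U a1 W ^ 2 * ev p U b1 W ^ 2) := by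
      rw [← Ep_smul, ← Ep_smul, ← Ep_smul, ← Ep_add, ← Ep_add, ← Ep_add]
      exact Ep_mono h0.le h1.le fun W _ => step1 h0 h1 hs hs0 _ _ _ _
    have e3 : Gb p (insert i U) a b = Gb p U a b + 4 * Gb p U a b1 + 4 * Gb p U a1 b +
        (16 + 16 * (sg p ^ 2)⁻¹) * Gb p U a1 b1 := by
      unfold Gb
      rw [sum_powerset_insert hi, mul_sum, mul_sum, mul_sum, ← sum_add_distrib, ← sum_add_distrib,
        ← sum_add_distrib, ← sum_add_distrib]
      refine sum_congr rfl fun S hS => ?_
      have hS' := mem_powerset.1 hS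
      have hiS : i ∉ S := fun h' => hi (hS' h')
      rw [Qs_insert hi a hS', Qs_insert hi b hS', Qs_insert' hi a hS', Qs_insert' hi b hS',
        card_insert_of_notMem hiS, pow_succ]
      ring
    have hG : 0 ≤ Gb p U a1 b1 := by
      unfold Gb
      refine sum_nonneg fun S _ => ?_
      have := Qs_nonneg U a1 S
      have := Qs_nonneg U b1 S
      positivity
    have hi2 : 0 < (sg p ^ 2)⁻¹ := by positivity
    rw [e1, e3]
    refine e2.trans ?_
    have h4 := ih a b
    have h5 := ih a b1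
    have h6 := ih a1 b
    have h7 := ih a1 b1
    have h8 : 3 * (sg p ^ 2)⁻¹ * Ep p U (fun W => ev p U a1 W ^ 2 * ev p U b1 W ^ 2) ≤
        3 * (sg p ^ 2)⁻¹ * Gb p U a1 b1 := mul_le_mul_of_nonneg_left h7 (by positivity)
    nlinarith

/-- fourth moments of functions of degree at most `k` whose generalised influences are at most
`Γ` -/
theorem hyp4 {p : ℝ} (h0 : 0 < p) (h1 : p < 1) (U : Finset α) (a : Finset α → ℝ) (k : ℕ)
    (hk : ∀ T ⊆ U, k < T.card → a T = 0) {Γ : ℝ}
    (hΓ : ∀ S ⊆ U, ((sg p ^ 2)⁻¹) ^ S.card *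
      (∑ T ∈ U.powerset, if S ⊆ T then a T ^ 2 else 0) ≤ Γ) :
    Ep p U (fun W => ev p U a W ^ 4) ≤ 32 ^ k * Γ * ∑ T ∈ U.powerset, a T ^ 2 := by
  have hs0 := sg_pos h0 h1
  have h2 := hyp h0 h1 U a a
  have hQ : ∀ S, Qs U a S ≤ 4 ^ k * ∑ T ∈ U.powerset, if S ⊆ T then a T ^ 2 else 0 := by
    intro S
    unfold Qs
    rw [mul_sum]
    refine sum_le_sum fun T hT => ?_
    split_ifs with h
    · by_cases hc : k < T.card
      · rw [hk T (mem_powerset.1 hT) hc]
        simp
      · exact mul_le_mul_of_nonneg_right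
          (pow_le_pow_right₀ (by norm_num) (not_lt.1 hc)) (sq_nonneg _)
    · simp
  calc Ep p U (fun W => ev p U a W ^ 4)
      = Ep p U (fun W => ev p U a W ^ 2 * ev p U a W ^ 2) := by
        congr 1
        funext W
        ring
    _ ≤ Gb p U a a := h2
    _ ≤ ∑ S ∈ U.powerset, 16 ^ k * Γ * ∑ T ∈ U.powerset, (if S ⊆ T then a T ^ 2 else 0) := by
        refine sum_le_sum fun S hS => ?_
        set q : ℝ := ∑ T ∈ U.powerset, (if S ⊆ T then a T ^ 2 else 0) with hq
        have hq0 : 0 ≤ q := sum_nonneg fun T _ => by split_ifs <;> positivity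
        have h3 : Qs U a S * Qs U a S ≤ (4 ^ k * q) * (4 ^ k * q) :=
          mul_le_mul (hQ S) (hQ S) (Qs_nonneg U a S) (by positivity)
        have hp : 0 < ((sg p ^ 2)⁻¹) ^ S.card := by positivity
        calc ((sg p ^ 2)⁻¹) ^ S.card * (Qs U a S * Qs U a S)
            ≤ ((sg p ^ 2)⁻¹) ^ S.card * ((4 ^ k * q) * (4 ^ k * q)) :=
              mul_le_mul_of_nonneg_left h3 hp.le
          _ = 16 ^ k * ((((sg p ^ 2)⁻¹) ^ S.card * q) * q) := by
              have : (16 : ℝ) ^ k = 4 ^ k * 4 ^ k := by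
                rw [← mul_pow]
                norm_num
              rw [this]
              ring
          _ ≤ 16 ^ k * (Γ * q) := by
              refine mul_le_mul_of_nonneg_left ?_ (by positivity)
              exact mul_le_mul_of_nonneg_right (hΓ S (mem_powerset.1 hS)) hq0
          _ = _ := by ring
    _ = 16 ^ k * Γ * ∑ T ∈ U.powerset, 2 ^ T.card * a T ^ 2 := by
        rw [← mul_sum, sum_comm]
        congr 1
        refine sum_congr rfl fun T hT => ?_
        rw [← sum_filter, sum_const, nsmul_eq_mul]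
        congr 1
        have : (U.powerset).filter (fun S => S ⊆ T) = T.powerset := by
          ext S
          simp only [mem_filter, mem_powerset]
          exact ⟨fun h => h.2, fun h => ⟨h.trans (mem_powerset.1 hT), h⟩⟩
        rw [this, card_powerset]
        push_cast
        rfl
    _ ≤ 16 ^ k * Γ * ∑ T ∈ U.powerset, 2 ^ k * a T ^ 2 := by
        have hΓ0 : 0 ≤ Γ := by
          refine le_trans ?_ (hΓ ∅ (empty_subset _))
          have : 0 ≤ ∑ T ∈ U.powerset, if (∅ : Finset α) ⊆ T then a T ^ 2 else 0 :=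
            sum_nonneg fun T _ => by split_ifs <;> positivity
          positivity
        refine mul_le_mul_of_nonneg_left ?_ (by positivity)
        refine sum_le_sum fun T hT => ?_
        by_cases hc : k < T.card
        · rw [hk T (mem_powerset.1 hT) hc]
          simp
        · exact mul_le_mul_of_nonneg_right
            (pow_le_pow_right₀ (by norm_num) (not_lt.1 hc)) (sq_nonneg _)
    _ = _ := by
        rw [← mul_sum]
        have : (32 : ℝ) ^ k = 16 ^ k * 2 ^ k := by
          rw [← mul_pow]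
          norm_num
        rw [this]
        ring

end Pool.Agent.Lib.AMP
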