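import Pool.Agent.Lib.MP_dcb6ed_co_AMP.Hyp

/-!
# Project AMP (MP_dcb6ed_co): generalised influences of monotone families and the level inequality
-/

set_option autoImplicit false

namespace Pool.Agent.Lib.AMP

open Finset

variable {α : Type} [DecidableEq α]

/-- an increasing family of subsets, as an indicator -/
structure Inc (f : Finset α → ℝ) : Prop where
  mono : ∀ V W : Finset α, V ⊆ W → f V ≤ f W
  zo : ∀ W, f W = 0 ∨ f W = 1

/-- the sum of the squares of the coefficients above `S`, normalised -/
noncomputable def Inf (p : ℝ) (U : Finset α) (f : Finset α → ℝ) (S : Finset α) : ℝ :=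
  ((sg p ^ 2)⁻¹) ^ S.card * ∑ T ∈ U.powerset, if S ⊆ T then co p U f T ^ 2 else 0

theorem dl_notMem {i : α} {W : Finset α} (h : i ∉ W) (f : Finset α → ℝ) :
    dl i f W = f (insert i W) - f W := by
  simp [dl, h]

theorem dl_insert {i : α} {W : Finset α} (h : i ∉ W) (f : Finset α → ℝ) :
    dl i f (insert i W) = f (insert i W) - f W := by
  simp [dl, h]

theorem co_insert {p : ℝ} (h0 : 0 < p) (h1 : p < 1) {U : Finset α} (f : Finset α → ℝ) {i : α}
    (hi : i ∈ U) {T : Finset α} (hiT : i ∉ T) :
    co p U f (insert i T) = sg p * co p U (dl i f) T := by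
  have hs := sg_sq h0.le h1.le
  have hs0 := (sg_pos h0 h1).ne'
  obtain ⟨U', hi', rfl⟩ : ∃ U', i ∉ U' ∧ insert i U' = U :=
    ⟨U.erase i, notMem_erase i U, insert_erase hi⟩
  unfold co
  rw [Ep_insert p hi', Ep_insert p hi']
  have e1 : Ep p U' (fun W => f (insert i W) * X p (insert i T) (insert i W)) =
      (1 - p) / sg p * Ep p U' (fun W => f (insert i W) * X p T W) := by
    rw [← Ep_smul]
    refine Ep_congr fun W hW => ?_
    rw [X_insert p hiT, chi_insert_self, X_insert_W p hiT]
    ring
  have e2 : Ep p U' (fun W => f W * X p (insert i T) W) =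
      -p / sg p * Ep p U' (fun W => f W * X p T W) := by
    rw [← Ep_smul]
    refine Ep_congr fun W hW => ?_
    rw [X_insert p hiT, chi_notMem p (fun h' => hi' (hW h'))]
    ring
  have e3 : Ep p U' (fun W => dl i f (insert i W) * X p T (insert i W)) =
      Ep p U' (fun W => f (insert i W) * X p T W) - Ep p U' (fun W => f W * X p T W) := by
    rw [← Ep_sub]
    refine Ep_congr fun W hW => ?_
    rw [dl_insert (fun h' => hi' (hW h')), X_insert_W p hiT]
    ring
  have e4 : Ep p U' (fun W => dl i f W * X p T W) =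
      Ep p U' (fun W => f (insert i W) * X p T W) - Ep p U' (fun W => f W * X p T W) := by
    rw [← Ep_sub]
    refine Ep_congr fun W hW => ?_
    rw [dl_notMem (fun h' => hi' (hW h'))]
    ring
  rw [e1, e2, e3, e4]
  field_simp
  rw [hs]
  ring

theorem exists_deriv {p : ℝ} (h0 : 0 < p) (h1 : p < 1) {U : Finset α} {f : Finset α → ℝ}
    (hf : ∀ V W : Finset α, V ⊆ W → f V ≤ f W) (S : Finset α) (hS : S ⊆ U) :
    ∃ g : Finset α → ℝ,
      (∀ T, Disjoint S T → co p U f (S ∪ T) = sg p ^ S.card * co p U g T) ∧
      (S = ∅ → g = f) ∧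
      (S.Nonempty → ∀ W, |g W| ≤ 2 ^ S.card * (f (W ∪ S) - f (W \ S))) := by
  induction S using Finset.induction with
  | empty => exact ⟨f, by simp, fun _ => rfl, fun h => absurd h (by simp)⟩
  | insert i S hi ih =>
    obtain ⟨g, hg1, hg2, hg3⟩ := ih (fun x hx => hS (mem_insert_of_mem hx))
    have hiU : i ∈ U := hS (mem_insert_self _ _)
    refine ⟨dl i g, ?_, fun h => absurd h (insert_ne_empty _ _), fun _ W => ?_⟩
    · intro T hT
      have hiT : i ∉ T := fun h' => (disjoint_left.1 hT) (mem_insert_self _ _) h'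
      have hST : Disjoint S (insert i T) := by
        rw [disjoint_left]
        intro x hx hx2
        rcases mem_insert.1 hx2 with h | h
        · exact hi (h ▸ hx)
        · exact disjoint_left.1 hT (mem_insert_of_mem hx) h
      have h2 : insert i S ∪ T = S ∪ insert i T := by
        ext x
        simp only [mem_union, mem_insert]
        tauto
      rw [h2, hg1 _ hST, co_insert h0 h1 g hiU hiT, card_insert_of_notMem hi, pow_succ]
      ring
    · rcases S.eq_empty_or_nonempty with hS0 | hSn
      · rw [hg2 hS0, hS0]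
        simp only [insert_empty_eq, card_singleton, pow_one]
        have h3 : W ∪ {i} = insert i W := by
          ext x
          simp only [mem_union, mem_insert, mem_singleton]
          tauto
        have h4 : W \ {i} = W.erase i := by
          ext x
          simp only [mem_sdiff, mem_erase, mem_singleton]
          tauto
        rw [h3, h4]
        unfold dl
        have h5 : f (W.erase i) ≤ f (insert i W) :=
          hf _ _ ((erase_subset _ _).trans (subset_insert _ _))
        rw [abs_of_nonneg (by linarith)]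
        linarith
      · have h3 := hg3 hSn (insert i W)
        have h4 := hg3 hSn (W.erase i)
        have h5 : f (insert i W ∪ S) ≤ f (W ∪ insert i S) := hf _ _ (by
          intro x
          simp only [mem_union, mem_insert]
          tauto)
        have h6 : f (W.erase i ∪ S) ≤ f (W ∪ insert i S) := hf _ _ (by
          intro x
          simp only [mem_union, mem_insert, mem_erase]
          tauto)
        have h7 : f (W \ insert i S) ≤ f (insert i W \ S) := hf _ _ (by
          intro x
          simp only [mem_sdiff, mem_insert]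
          tauto)
        have h8 : f (W \ insert i S) ≤ f (W.erase i \ S) := hf _ _ (by
          intro x
          simp only [mem_sdiff, mem_insert, mem_erase]
          tauto)
        have h9 : |dl i g W| ≤ |g (insert i W)| + |g (W.erase i)| := abs_sub _ _
        rw [card_insert_of_notMem hi, pow_succ]
        have h10 : (0 : ℝ) < 2 ^ S.card := by positivity
        nlinarith

theorem sum_above (U S : Finset α) (hS : S ⊆ U) (F : Finset α → ℝ) :
    (∑ T ∈ U.powerset, if S ⊆ T then F T else 0) = ∑ T ∈ (U \ S).powerset, F (S ∪ T) := by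
  rw [← sum_filter]
  refine sum_nbij' (fun T => T \ S) (fun T => S ∪ T) ?_ ?_ ?_ ?_ ?_
  · intro T hT
    rw [mem_filter, mem_powerset] at hT
    rw [mem_powerset]
    exact sdiff_subset_sdiff hT.1 (subset_refl _)
  · intro T hT
    rw [mem_powerset] at hT
    rw [mem_filter, mem_powerset]
    exact ⟨union_subset hS (hT.trans sdiff_subset), subset_union_left⟩
  · intro T hT
    rw [mem_filter, mem_powerset] at hT
    show S ∪ (T \ S) = T
    rw [union_sdiff_of_subset hT.2]
  · intro T hT
    rw [mem_powerset] at hT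
    show (S ∪ T) \ S = T
    ext x
    simp only [mem_sdiff, mem_union]
    constructor
    · rintro ⟨h | h, h'⟩
      · exact absurd h h'
      · exact h
    · intro h
      exact ⟨Or.inr h, (mem_sdiff.1 (hT h)).2⟩
  · intro T hT
    rw [mem_filter, mem_powerset] at hT
    show F T = F (S ∪ (T \ S))
    rw [union_sdiff_of_subset hT.2]

/-- generalised influences of an increasing family -/
theorem Inf_le {p : ℝ} (h0 : 0 < p) (h1 : p < 1) {U : Finset α} {f : Finset α → ℝ}
    (hf : Inc f) {S : Finset α} (hS : S ⊆ U) (hSn : S.Nonempty) :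
    Inf p U f S ≤ 4 ^ S.card * (Ep p U (fun W => f (W ∪ S)) - Ep p U (fun W => f (W \ S))) := by
  obtain ⟨g, hg1, -, hg3⟩ := exists_deriv h0 h1 hf.mono S hS
  have hs0 := sg_pos h0 h1
  unfold Inf
  rw [sum_above U S hS]
  have h2 : ∑ T ∈ (U \ S).powerset, co p U f (S ∪ T) ^ 2 =
      (sg p ^ 2) ^ S.card * ∑ T ∈ (U \ S).powerset, co p U g T ^ 2 := by
    rw [mul_sum]
    refine sum_congr rfl fun T hT => ?_
    rw [mem_powerset] at hT
    rw [hg1 T (by
      rw [disjoint_left]
      intro x hx hx2
      exact (mem_sdiff.1 (hT hx2)).2 hx)]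
    rw [mul_pow, ← pow_mul, ← pow_mul, mul_comm S.card 2]
  have h3 : ∑ T ∈ (U \ S).powerset, co p U g T ^ 2 ≤ Ep p U (fun W => g W * g W) := by
    rw [parseval h0 h1]
    refine (sum_le_sum_of_subset_of_nonneg (powerset_mono.2 sdiff_subset)
      (fun T _ _ => sq_nonneg _)).trans (le_of_eq ?_)
    exact sum_congr rfl fun T _ => by ring
  rw [h2, ← mul_assoc, ← mul_pow, inv_mul_cancel₀ (by positivity), one_pow, one_mul]
  refine h3.trans ?_
  rw [← Ep_sub, ← Ep_smul]
  refine Ep_mono h0.le h1.le fun W _ => ?_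
  have h4 := hg3 hSn W
  have h5 : (f (W ∪ S) - f (W \ S)) ^ 2 = f (W ∪ S) - f (W \ S) := by
    have hm : f (W \ S) ≤ f (W ∪ S) := hf.mono _ _ (sdiff_subset.trans subset_union_left)
    rcases hf.zo (W ∪ S) with a | a <;> rcases hf.zo (W \ S) with b | b <;> rw [a, b] at hm ⊢
    · norm_num
    · norm_num at hm
    · norm_num
    · norm_num
  have h6 : g W * g W = |g W| * |g W| := (abs_mul_abs_self _).symm
  rw [h6]
  have h7 : |g W| * |g W| ≤ (2 ^ S.card * (f (W ∪ S) - f (W \ S))) *
      (2 ^ S.card * (f (W ∪ S) - f (W \ S))) :=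
    mul_le_mul h4 h4 (abs_nonneg _) ((abs_nonneg _).trans h4)
  refine h7.trans (le_of_eq ?_)
  have h8 : (4 : ℝ) ^ S.card = 2 ^ S.card * 2 ^ S.card := by
    rw [← mul_pow]
    norm_num
  rw [h8]
  linear_combination (2 ^ S.card * 2 ^ S.card : ℝ) * h5

theorem reidx {U : Finset α} {i : α} (hi : i ∈ U) (F : Finset α → ℝ) :
    (∑ T ∈ U.powerset, if i ∈ T then 0 else F (insert i T)) =
      ∑ T ∈ U.powerset, if i ∈ T then F T else 0 := by
  obtain ⟨U', hi', rfl⟩ : ∃ U', i ∉ U' ∧ insert i U' = U :=
    ⟨U.erase i, notMem_erase i U, insert_erase hi⟩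
  rw [sum_powerset_insert hi', sum_powerset_insert hi']
  have h1 : ∀ T ∈ U'.powerset, i ∉ T := fun T hT h' => hi' (mem_powerset.1 hT h')
  have e1 : ∑ T ∈ U'.powerset, (if i ∈ T then 0 else F (insert i T)) =
      ∑ T ∈ U'.powerset, F (insert i T) := sum_congr rfl fun T hT => if_neg (h1 T hT)
  have e2 : ∑ T ∈ U'.powerset, (if i ∈ insert i T then 0 else F (insert i (insert i T))) = 0 :=
    sum_eq_zero fun T _ => if_pos (mem_insert_self _ _)
  have e3 : ∑ T ∈ U'.powerset, (if i ∈ T then F T else 0) = 0 :=
    sum_eq_zero fun T hT => if_neg (h1 T hT)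
  have e4 : ∑ T ∈ U'.powerset, (if i ∈ insert i T then F (insert i T) else 0) =
      ∑ T ∈ U'.powerset, F (insert i T) :=
    sum_congr rfl fun T _ => if_pos (mem_insert_self _ _)
  rw [e1, e2, e3, e4]
  ring

theorem dl_zo {f : Finset α → ℝ} (hf : Inc f) (i : α) (W : Finset α) :
    dl i f W = 0 ∨ dl i f W = 1 := by
  have hm : f (W.erase i) ≤ f (insert i W) :=
    hf.mono _ _ ((erase_subset _ _).trans (subset_insert _ _))
  unfold dl
  rcases hf.zo (insert i W) with a | a <;> rcases hf.zo (W.erase i) with b | b <;>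
    rw [a, b] at hm ⊢
  · norm_num
  · norm_num at hm
  · norm_num
  · norm_num

/-- the Hoelder step -/
theorem holder {p : ℝ} (h0 : 0 ≤ p) (h1 : p ≤ 1) (U : Finset α) {d : Finset α → ℝ}
    (hd : ∀ W, d W = 0 ∨ d W = 1) (h : Finset α → ℝ) :
    Ep p U (fun W => d W * h W) ^ 4 ≤ Ep p U d ^ 3 * Ep p U (fun W => h W ^ 4) := by
  have hd2 : ∀ W, d W ^ 2 = d W := fun W => by
    rcases hd W with a | a <;> rw [a] <;> norm_num
  have hd0 : ∀ W, 0 ≤ d W := fun W => by
    rcases hd W with a | a <;> rw [a] <;> norm_num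
  have a1 := Ep_cs h0 h1 U d (fun W => d W * h W)
  have a2 := Ep_cs h0 h1 U d (fun W => h W ^ 2)
  have e1 : Ep p U (fun W => d W * (d W * h W)) = Ep p U (fun W => d W * h W) := by
    refine Ep_congr fun W _ => ?_
    linear_combination (h W) * hd2 W
  have e2 : Ep p U (fun W => d W ^ 2) = Ep p U d := Ep_congr fun W _ => hd2 W
  have e3 : Ep p U (fun W => (d W * h W) ^ 2) = Ep p U (fun W => d W * h W ^ 2) := by
    refine Ep_congr fun W _ => ?_
    linear_combination (h W ^ 2) * hd2 W
  have e4 : Ep p U (fun W => (h W ^ 2) ^ 2) = Ep p U (fun W => h W ^ 4) :=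
    Ep_congr fun W _ => by ring
  rw [e1, e2, e3] at a1
  rw [e2, e4] at a2
  have hI : 0 ≤ Ep p U d := Ep_nonneg h0 h1 fun W _ => hd0 W
  calc Ep p U (fun W => d W * h W) ^ 4 = (Ep p U (fun W => d W * h W) ^ 2) ^ 2 := by ring
    _ ≤ (Ep p U d * Ep p U (fun W => d W * h W ^ 2)) ^ 2 :=
        pow_le_pow_left₀ (sq_nonneg _) a1 2
    _ = Ep p U d ^ 2 * Ep p U (fun W => d W * h W ^ 2) ^ 2 := by ring
    _ ≤ Ep p U d ^ 2 * (Ep p U d * Ep p U (fun W => h W ^ 4)) :=
        mul_le_mul_of_nonneg_left a2 (sq_nonneg _)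
    _ = _ := by ring

/-- the level inequality on a hereditary family of good sets -/
theorem level {p : ℝ} (h0 : 0 < p) (h1 : p < 1) {U : Finset α} {f : Finset α → ℝ}
    (hf : Inc f) (k : ℕ) (good : Finset α → Prop) [DecidablePred good]
    (hg : ∀ S T, S ⊆ T → good T → good S) {β z : ℝ} (hβ0 : 0 ≤ β)
    (hβ : ∀ S ⊆ U, S.Nonempty → S.card ≤ k → good S → Inf p U f S ≤ β)
    (hz0 : 0 ≤ z) (hz : 32 ^ k * β ≤ z ^ 3) :
    (∑ T ∈ U.powerset, if T.Nonempty ∧ T.card ≤ k ∧ good T then co p U f T ^ 2 else 0) ≤
      z * (sg p ^ 2 * ∑ i ∈ U, Ep p U (dl i f)) := by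
  have hs0 := sg_pos h0 h1
  set s := sg p with hs
  have key : ∀ i ∈ U, (∑ T ∈ U.powerset,
      if i ∈ T then (if T.card ≤ k ∧ good T then co p U f T ^ 2 else 0) else 0) ≤
      s ^ 2 * (z * Ep p U (dl i f)) := by
    intro i hi
    set a : Finset α → ℝ := fun T => if i ∈ T then 0 else
      (if (insert i T).card ≤ k ∧ good (insert i T) then s⁻¹ * co p U f (insert i T) else 0)
      with ha
    set m : ℝ := ∑ T ∈ U.powerset, a T ^ 2 with hm
    have hm0 : 0 ≤ m := sum_nonneg fun T _ => sq_nonneg _
    -- the sum is `s^2 m`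
    have e0 : (∑ T ∈ U.powerset,
        if i ∈ T then (if T.card ≤ k ∧ good T then co p U f T ^ 2 else 0) else 0) = s ^ 2 * m := by
      rw [← reidx hi, hm, mul_sum]
      refine sum_congr rfl fun T _ => ?_
      simp only [ha]
      split_ifs with c1 c2
      · ring
      · field_simp
      · ring
    -- duality
    have e1 : Ep p U (fun W => dl i f W * ev p U a W) = m := by
      rw [parseval h0 h1, hm]
      refine sum_congr rfl fun T hT => ?_
      rw [co_ev h0 h1 U a (mem_powerset.1 hT)]
      simp only [ha]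
      split_ifs with c1 c2
      · ring
      · rw [co_insert h0 h1 f hi c1, ← hs]
        field_simp
      · ring
    have e2 := holder h0.le h1.le U (dl_zo hf i) (ev p U a)
    have e3 : Ep p U (fun W => ev p U a W ^ 4) ≤ 32 ^ k * β * m := by
      refine hyp4 h0 h1 U a k ?_ ?_
      · intro T _ hT
        simp only [ha]
        split_ifs with c1 c2
        · rfl
        · rw [card_insert_of_notMem c1] at c2
          omega
        · rfl
      · intro S hS
        by_cases hiS : i ∈ S
        · have : (∑ T ∈ U.powerset, if S ⊆ T then a T ^ 2 else 0) = 0 := by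
            refine sum_eq_zero fun T _ => ?_
            split_ifs with c
            · simp [ha, c hiS]
            · rfl
          rw [this, mul_zero]
          exact hβ0
        · by_cases hc : (insert i S).card ≤ k ∧ good (insert i S)
          · have h3 := hβ (insert i S) (insert_subset hi hS) (insert_nonempty _ _) hc.1 hc.2
            refine le_trans ?_ h3
            unfold Inf
            rw [← hs, card_insert_of_notMem hiS, pow_succ ((s ^ 2)⁻¹), mul_assoc]
            refine mul_le_mul_of_nonneg_left ?_ (by positivity)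
            rw [mul_sum]
            have h4 : (∑ T ∈ U.powerset, (s ^ 2)⁻¹ *
                if insert i S ⊆ T then co p U f T ^ 2 else 0) =
                ∑ T ∈ U.powerset, if i ∈ T then
                  (if insert i S ⊆ T then (s ^ 2)⁻¹ * co p U f T ^ 2 else 0) else 0 := by
              refine sum_congr rfl fun T _ => ?_
              by_cases c1 : insert i S ⊆ T
              · rw [if_pos c1, if_pos (c1 (mem_insert_self _ _)), if_pos c1]
              · rw [if_neg c1, if_neg c1, mul_zero]
                simp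
            rw [h4, ← reidx hi]
            refine sum_le_sum fun T _ => ?_
            by_cases c1 : S ⊆ T
            · rw [if_pos c1]
              by_cases c2 : i ∈ T
              · simp [ha, c2]
              · rw [if_neg c2, if_pos (insert_subset_insert _ c1)]
                simp only [ha]
                rw [if_neg c2]
                split_ifs with c3
                · rw [mul_pow, inv_pow]
                · have : 0 ≤ (s ^ 2)⁻¹ * co p U f (insert i T) ^ 2 := by positivity
                  simpa using this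
            · rw [if_neg c1]
              split_ifs <;> positivity
          · have : (∑ T ∈ U.powerset, if S ⊆ T then a T ^ 2 else 0) = 0 := by
              refine sum_eq_zero fun T _ => ?_
              split_ifs with c
              · simp only [ha]
                split_ifs with c1 c2
                · ring
                · exfalso
                  apply hc
                  refine ⟨(card_le_card (insert_subset_insert _ c)).trans c2.1,
                    hg _ _ (insert_subset_insert _ c) c2.2⟩
                · ring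
              · rfl
            rw [this, mul_zero]
            exact hβ0
    rw [e1] at e2
    have hI0 : 0 ≤ Ep p U (dl i f) := Ep_nonneg h0.le h1.le fun W _ => by
      rcases dl_zo hf i W with b | b <;> rw [b] <;> norm_num
    set I := Ep p U (dl i f) with hI
    have e4 : m ^ 4 ≤ (z * I) ^ 3 * m := by
      calc m ^ 4 ≤ I ^ 3 * Ep p U (fun W => ev p U a W ^ 4) := e2
        _ ≤ I ^ 3 * (32 ^ k * β * m) := mul_le_mul_of_nonneg_left e3 (by positivity)
        _ ≤ I ^ 3 * (z ^ 3 * m) := by
            refine mul_le_mul_of_nonneg_left ?_ (by positivity)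
            exact mul_le_mul_of_nonneg_right hz hm0
        _ = _ := by ring
    have e5 : m ≤ z * I := by
      rcases hm0.eq_or_lt with h | h
      · rw [← h]
        positivity
      · have h6 : m ^ 3 ≤ (z * I) ^ 3 := by
          have : m ^ 3 * m ≤ (z * I) ^ 3 * m := by
            calc m ^ 3 * m = m ^ 4 := by ring
              _ ≤ _ := e4
          exact le_of_mul_le_mul_right this h
        exact le_of_pow_le_pow_left₀ (by norm_num) (by positivity) h6
    rw [e0]
    exact mul_le_mul_of_nonneg_left e5 (by positivity)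
  have h2 := sum_le_sum key
  rw [sum_comm] at h2
  have h3 : (∑ T ∈ U.powerset, if T.Nonempty ∧ T.card ≤ k ∧ good T then co p U f T ^ 2 else 0) ≤
      ∑ T ∈ U.powerset, ∑ i ∈ U,
        if i ∈ T then (if T.card ≤ k ∧ good T then co p U f T ^ 2 else 0) else 0 := by
    refine sum_le_sum fun T hT => ?_
    by_cases c : T.Nonempty ∧ T.card ≤ k ∧ good T
    · rw [if_pos c]
      obtain ⟨⟨i, hi⟩, c2⟩ := c
      have hiU : i ∈ U := mem_powerset.1 hT hi
      refine le_trans ?_ (single_le_sum (f := fun i => if i ∈ T then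
        (if T.card ≤ k ∧ good T then co p U f T ^ 2 else 0) else 0)
        (fun j _ => by split_ifs <;> positivity) hiU)
      simp only [hi, c2, and_self, if_true]
      exact le_rfl
    · rw [if_neg c]
      exact sum_nonneg fun j _ => by split_ifs <;> positivity
  refine h3.trans (h2.trans (le_of_eq ?_))
  rw [← mul_sum, ← mul_sum]
  ring

/-- the total degree is at most the total influence -/
theorem total_le {p : ℝ} (h0 : 0 < p) (h1 : p < 1) {U : Finset α} {f : Finset α → ℝ}
    (hf : Inc f) :
    (∑ T ∈ U.powerset, (T.card : ℝ) * co p U f T ^ 2) ≤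
      sg p ^ 2 * ∑ i ∈ U, Ep p U (dl i f) := by
  have hs0 := sg_pos h0 h1
  have key : ∀ i ∈ U, (∑ T ∈ U.powerset, if i ∈ T then co p U f T ^ 2 else 0) ≤
      sg p ^ 2 * Ep p U (dl i f) := by
    intro i hi
    rw [← reidx hi]
    have h2 : Ep p U (dl i f) = Ep p U (fun W => dl i f W * dl i f W) := by
      refine Ep_congr fun W _ => ?_
      rcases dl_zo hf i W with b | b <;> rw [b] <;> norm_num
    rw [h2, parseval h0 h1, mul_sum]
    refine sum_le_sum fun T _ => ?_
    split_ifs with c
    · exact mul_nonneg (by positivity) (mul_self_nonneg _)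
    · rw [co_insert h0 h1 f hi c, mul_pow]
      exact le_of_eq (by ring)
  have h2 := sum_le_sum key
  rw [sum_comm, ← mul_sum] at h2
  refine le_trans (le_of_eq ?_) h2
  refine sum_congr rfl fun T hT => ?_
  rw [← sum_filter, sum_const, nsmul_eq_mul]
  congr 2
  have : U.filter (fun i => i ∈ T) = T := by
    ext x
    simp only [mem_filter]
    exact ⟨fun h => h.2, fun h => ⟨mem_powerset.1 hT h, h⟩⟩
  rw [this]

/-- the main inequality -/
theorem main_ineq {p : ℝ} (h0 : 0 < p) (h1 : p < 1) {U : Finset α} {f : Finset α → ℝ}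
    (hf : Inc f) (k : ℕ) (hk : 0 < k) (good : Finset α → Prop) [DecidablePred good]
    (hg : ∀ S T, S ⊆ T → good T → good S) {β z ρ : ℝ} (hβ0 : 0 ≤ β)
    (hβ : ∀ S ⊆ U, S.Nonempty → S.card ≤ k → good S → Inf p U f S ≤ β)
    (hz0 : 0 ≤ z) (hz : 32 ^ k * β ≤ z ^ 3)
    (hρ : (∑ T ∈ U.powerset, if T.card ≤ k ∧ ¬ good T then co p U f T ^ 2 else 0) ≤ ρ) :
    Ep p U f * (1 - Ep p U f) ≤
      (z + 1 / k) * (sg p ^ 2 * ∑ i ∈ U, Ep p U (dl i f)) + ρ := by
  have e1 := level h0 h1 hf k good hg hβ0 hβ hz0 hz
  have e2 := total_le h0 h1 hf (U := U)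
  have e3 := parseval h0 h1 U f f
  have e4 : Ep p U (fun W => f W * f W) = Ep p U f := by
    refine Ep_congr fun W _ => ?_
    rcases hf.zo W with b | b <;> rw [b] <;> norm_num
  have e5 : co p U f ∅ = Ep p U f := by
    simp [co, X]
  have hk' : (0 : ℝ) < k := by exact_mod_cast hk
  have e6 : (∑ T ∈ U.powerset, if k < T.card then co p U f T ^ 2 else 0) ≤
      1 / k * ∑ T ∈ U.powerset, (T.card : ℝ) * co p U f T ^ 2 := by
    rw [mul_sum]
    refine sum_le_sum fun T _ => ?_
    split_ifs with c
    · have : (k : ℝ) ≤ T.card := by exact_mod_cast c.le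
      rw [div_mul_eq_mul_div, one_mul, le_div_iff₀ hk']
      nlinarith [sq_nonneg (co p U f T)]
    · positivity
  have e7 : ∑ T ∈ U.powerset, co p U f T * co p U f T ≤
      (∑ T ∈ U.powerset, if T = ∅ then co p U f T ^ 2 else 0) +
      (∑ T ∈ U.powerset, if T.Nonempty ∧ T.card ≤ k ∧ good T then co p U f T ^ 2 else 0) +
      (∑ T ∈ U.powerset, if k < T.card then co p U f T ^ 2 else 0) +
      (∑ T ∈ U.powerset, if T.card ≤ k ∧ ¬ good T then co p U f T ^ 2 else 0) := by
    rw [← sum_add_distrib, ← sum_add_distrib, ← sum_add_distrib]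
    refine sum_le_sum fun T _ => ?_
    have hsq := sq_nonneg (co p U f T)
    rcases T.eq_empty_or_nonempty with h | h
    · rw [if_pos h]
      split_ifs <;> nlinarith
    · by_cases c1 : k < T.card
      · rw [if_pos c1]
        split_ifs <;> nlinarith
      · by_cases c2 : good T
        · rw [if_pos (⟨h, not_lt.1 c1, c2⟩ : T.Nonempty ∧ T.card ≤ k ∧ good T)]
          split_ifs <;> nlinarith
        · rw [if_pos (⟨not_lt.1 c1, c2⟩ : T.card ≤ k ∧ ¬ good T)]
          split_ifs <;> nlinarith
  have e8 : (∑ T ∈ U.powerset, if T = ∅ then co p U f T ^ 2 else 0) = Ep p U f ^ 2 := by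
    rw [sum_ite_eq' U.powerset ∅ (fun T => co p U f T ^ 2), if_pos (empty_mem_powerset _), e5]
  have e9 : 1 / (k : ℝ) * ∑ T ∈ U.powerset, (T.card : ℝ) * co p U f T ^ 2 ≤
      1 / k * (sg p ^ 2 * ∑ i ∈ U, Ep p U (dl i f)) :=
    mul_le_mul_of_nonneg_left e2 (by positivity)
  rw [← e3, e4, e8] at e7
  nlinarith

end Pool.Agent.Lib.AMP
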