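import Pool.Agent.Lib.MP_dcb6ed_co_AMP.Beta

/-!
# Project AMP (MP_dcb6ed_co): list assignments as random sets of pairs, colourability
-/

set_option autoImplicit false
set_option linter.unusedSectionVars false

namespace Pool.Agent.Lib.AMP

open Finset Pool.Agent.Lib.FR

section Gen

variable {V C : Type} [Fintype V] [DecidableEq V] [Fintype C] [DecidableEq C]

/-- the lists of a set of pairs -/
def lst (W : Finset (Edge V × C)) (e : Edge V) : Finset C := univ.filter (fun c => (e, c) ∈ W)

/-- there is an `L`-edge-colouring -/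
def Colo (L : Edge V → Finset C) : Prop :=
  ∃ φ : Edge V → C, (∀ e, φ e ∈ L e) ∧
    ∀ e e' v, v ∈ e.1 → v ∈ e'.1 → φ e = φ e' → e = e'

open Classical in
/-- the indicator of the colourable systems -/
noncomputable def fC (W : Finset (Edge V × C)) : ℝ := if Colo (lst W) then 1 else 0

theorem fC_inc : Inc (fC (V := V) (C := C)) where
  mono := by
    intro W W' h
    unfold fC
    split_ifs with h1 h2
    · exact le_rfl
    · exfalso
      apply h2
      obtain ⟨φ, h3, h4⟩ := h1
      refine ⟨φ, fun e => ?_, h4⟩
      have := h3 e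
      simp only [lst, mem_filter, mem_univ, true_and] at this ⊢
      exact h this
    · norm_num
    · exact le_rfl
  zo := by
    intro W
    unfold fC
    split_ifs
    · right; rfl
    · left; rfl

theorem Colo_map (g : Equiv.Perm V × Equiv.Perm C) (W : Finset (Edge V × C))
    (h : Colo (lst W)) : Colo (lst (W.map (rho g).toEmbedding)) := by
  obtain ⟨φ, h1, h2⟩ := h
  refine ⟨fun e => g.2 (φ ((pe g.1).symm e)), fun e => ?_, ?_⟩
  · have h3 := h1 ((pe g.1).symm e)
    simp only [lst, mem_filter, mem_univ, true_and] at h3 ⊢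
    rw [mem_map]
    refine ⟨_, h3, ?_⟩
    show ((pe g.1) ((pe g.1).symm e), g.2 (φ ((pe g.1).symm e))) = _
    rw [Equiv.apply_symm_apply]
  · intro e e' v hv hv' h3
    have h4 := g.2.injective h3
    have h5 : ∀ e : Edge V, v ∈ e.1 → g.1.symm v ∈ ((pe g.1).symm e).1 := by
      intro e he
      show g.1.symm v ∈ e.1.map g.1.symm
      rw [Sym2.mem_map]
      exact ⟨v, he, rfl⟩
    exact (pe g.1).symm.injective (h2 _ _ _ (h5 e hv) (h5 e' hv') h4)

theorem fC_map (g : Equiv.Perm V × Equiv.Perm C) (W : Finset (Edge V × C)) :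
    fC (W.map (rho g).toEmbedding) = fC W := by
  have h : Colo (lst (W.map (rho g).toEmbedding)) ↔ Colo (lst W) := by
    constructor
    · intro h
      have h2 := Colo_map g⁻¹ _ h
      have h3 : (W.map (rho g).toEmbedding).map (rho g⁻¹).toEmbedding = W := by
        rw [map_map]
        have : (rho g).toEmbedding.trans (rho g⁻¹).toEmbedding =
            Function.Embedding.refl (Edge V × C) := by
          ext1 x
          show (rho g⁻¹) ((rho g) x) = x
          rw [← Equiv.Perm.mul_apply, ← map_mul]
          simp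
        rw [this, map_refl]
      rwa [h3] at h2
    · exact Colo_map g W
  unfold fC
  by_cases h2 : Colo (lst W)
  · rw [if_pos h2, if_pos (h.2 h2)]
  · rw [if_neg h2, if_neg (fun h3 => h2 (h.1 h3))]

end Gen

/-- the probability of colourability -/
noncomputable def Pc (n : ℕ) (p : ℝ) : ℝ :=
  listProb n p (fun L => ∃ φ : Edge (Fin (2 * n)) → Fin (2 * n - 1), (∀ e, φ e ∈ L e) ∧
    ∀ e e' v, v ∈ e.1 → v ∈ e'.1 → φ e = φ e' → e = e')

theorem Pc_eq (n : ℕ) (p : ℝ) :
    Pc n p = Ep p univ (fC (V := Fin (2 * n)) (C := Fin (2 * n - 1))) := by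
  classical
  unfold Pc listProb Ep
  rw [powerset_univ]
  refine Fintype.sum_equiv
    { toFun := fun L => univ.filter (fun x => x.2 ∈ L x.1)
      invFun := fun W => lst W
      left_inv := ?_
      right_inv := ?_ } _ _ ?_
  · intro L
    funext e
    ext c
    simp [lst]
  · intro W
    ext x
    simp [lst]
  · intro L
    simp only [Equiv.coe_fn_mk]
    have h1 : lst (univ.filter (fun x : Edge (Fin (2 * n)) × Fin (2 * n - 1) => x.2 ∈ L x.1)) =
        L := by
      funext e
      ext c
      simp [lst]
    have h2 : wt p univ (univ.filter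
        (fun x : Edge (Fin (2 * n)) × Fin (2 * n - 1) => x.2 ∈ L x.1)) =
        ∏ e, ∏ c, (if c ∈ L e then p else 1 - p) := by
      rw [← Fintype.prod_prod_type' (fun e c => if c ∈ L e then p else 1 - p), prod_ite,
        prod_const, prod_const]
      unfold wt
      congr 3
      ext x
      simp
    rw [h2]
    unfold fC
    rw [h1]
    by_cases h : Colo L
    · rw [if_pos h, if_pos (by exact h), mul_one]
    · rw [if_neg h, if_neg (by exact h), mul_zero]

end Pool.Agent.Lib.AMP
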