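import Pool.Agent.Lib.MP_dcb6ed_co_AMP.Lnk

/-!
# Project AMP (MP_dcb6ed_co): the choice of the parameters and the logit lemma
-/

set_option autoImplicit false

namespace Pool.Agent.Lib.AMP

open Finset Filter Topology Pool.Agent.Lib.FR

theorem two_le_exp : (2 : ℝ) ≤ Real.exp 1 := by
  have := Real.add_one_le_exp (1 : ℝ)
  linarith

theorem two_pow_le (m : ℕ) : (2 : ℝ) ^ m ≤ Real.exp m := by
  calc (2 : ℝ) ^ m ≤ Real.exp 1 ^ m := pow_le_pow_left₀ (by norm_num) two_le_exp m
    _ = Real.exp m := by rw [← Real.exp_nat_mul, mul_one]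

/-- the parameters are admissible -/
theorem par {n k : ℕ} {x p : ℝ} (hn : Real.exp (Real.exp x) = n)
    (hk1 : (k : ℝ) ≤ x / 20) (hk2 : x / 20 < k + 1)
    (h40 : 40 ≤ x) (h3 : 32 * x ^ 3 ≤ Real.exp x) (h4 : 4000 ≤ Real.exp (17 / 200 * x))
    (hp1 : Real.exp x / (2 * n) ≤ p) (hp2 : p ≤ Real.exp (11 * x) / n) :
    Siz (Fin (2 * n)) (Fin (2 * n - 1)) n k p ∧
    32 ^ k * (4 ^ k * (Real.sqrt (2 ^ k * (k / (n * p))) + k * p)) ≤ (1 / (k : ℝ)) ^ 3 ∧
    2 ^ (4 * k ^ 3) * (4 * p) * (1 + 8 * (n * p)) ^ (3 * k) ≤ Real.exp (-(Real.exp x / 2)) := by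
  have hn0 : (0 : ℝ) < n := by rw [← hn]; exact Real.exp_pos _
  have hx0 : 0 < x := by linarith
  have hex : x + 1 ≤ Real.exp x := Real.add_one_le_exp x
  have hk0 : (1 : ℝ) < k := by linarith
  have hkn0 : 0 < k := by
    have : (0 : ℝ) < k := by linarith
    exact_mod_cast this
  have hx2 : (1600 : ℝ) ≤ x ^ 2 := by nlinarith
  have hx3 : 1600 * x ≤ x ^ 3 := by nlinarith
  have hp0 : 0 < p := lt_of_lt_of_le (by positivity) hp1
  have hnp1 : Real.exp x / 2 ≤ n * p := by
    rw [div_le_iff₀ (by positivity)] at hp1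
    linarith
  have hnp2 : n * p ≤ Real.exp (11 * x) := by
    rw [le_div_iff₀ hn0] at hp2
    linarith
  have hnp0 : 0 < n * p := by positivity
  have hbig : 20 + 12 * x ≤ Real.exp x := by nlinarith
  have h20 : (1048576 : ℝ) ≤ Real.exp 20 := by
    have := two_pow_le 20
    norm_num at this
    exact this
  have h4p : 4 * p ≤ 1 := by
    have e1 : (4 : ℝ) ≤ Real.exp 20 := by linarith
    have e2 : 4 * Real.exp (11 * x) ≤ n := by
      rw [← hn]
      calc 4 * Real.exp (11 * x) ≤ Real.exp 20 * Real.exp (11 * x) :=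
            mul_le_mul_of_nonneg_right e1 (Real.exp_pos _).le
        _ = Real.exp (20 + 11 * x) := (Real.exp_add _ _).symm
        _ ≤ _ := Real.exp_le_exp.2 (by linarith)
    calc 4 * p ≤ 4 * (Real.exp (11 * x) / n) := by linarith
      _ = 4 * Real.exp (11 * x) / n := by ring
      _ ≤ 1 := (div_le_one hn0).2 e2
  refine ⟨⟨?_, hkn0, ?_, ?_, ?_, ?_, hp0, h4p, ?_⟩, ?_, ?_⟩
  · exact_mod_cast hn0
  · have : (k : ℝ) ≤ n := by
      rw [← hn]
      have := Real.add_one_le_exp (Real.exp x)
      linarith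
    exact_mod_cast this
  · exact Fintype.card_fin _
  · rw [Fintype.card_fin]
    have : 0 < n := by exact_mod_cast hn0
    omega
  · rw [Fintype.card_fin]
    omega
  · linarith
  · -- the bound for the influences
    have a1 : (2 : ℝ) ^ k ≤ Real.exp (x / 20) :=
      (two_pow_le k).trans (Real.exp_le_exp.2 hk1)
    have a2 : (32 : ℝ) ^ k * 4 ^ k ≤ Real.exp (7 * x / 20) := by
      have e1 : (32 : ℝ) ^ k * 4 ^ k = (2 ^ k) ^ 7 := by
        rw [← pow_mul, mul_comm k 7, pow_mul, ← mul_pow]
        norm_num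
      rw [e1]
      calc ((2 : ℝ) ^ k) ^ 7 ≤ Real.exp (x / 20) ^ 7 := pow_le_pow_left₀ (by positivity) a1 7
        _ = _ := by
          rw [← Real.exp_nat_mul]
          congr 1
          push_cast
          ring
    have a3 : (k : ℝ) ≤ Real.exp (x / 20) := by
      have := Real.add_one_le_exp (x / 20)
      linarith
    have a4 : (k : ℝ) ≤ 10 * Real.exp (x / 200) := by
      have := Real.add_one_le_exp (x / 200)
      linarith
    have a5 : Real.sqrt (2 ^ k * (k / (n * p))) ≤ 2 * Real.exp (-(9 * x / 20)) := by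
      apply Real.sqrt_le_iff.2
      refine ⟨by positivity, ?_⟩
      have e1 : (k : ℝ) / (n * p) ≤ Real.exp (x / 20) / (Real.exp x / 2) :=
        div_le_div₀ (by positivity) a3 (by positivity) hnp1
      calc (2 : ℝ) ^ k * (k / (n * p)) ≤
          Real.exp (x / 20) * (Real.exp (x / 20) / (Real.exp x / 2)) :=
            mul_le_mul a1 e1 (by positivity) (by positivity)
        _ = 2 * (Real.exp (x / 20) * Real.exp (x / 20) * Real.exp (-x)) := by
            rw [Real.exp_neg]
            field_simp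
        _ = 2 * Real.exp (-(9 * x / 10)) := by
            rw [← Real.exp_add, ← Real.exp_add]
            congr 2
            ring
        _ ≤ 4 * Real.exp (-(9 * x / 10)) := by
            have := Real.exp_pos (-(9 * x / 10))
            linarith
        _ = (2 * Real.exp (-(9 * x / 20))) ^ 2 := by
            rw [mul_pow, ← Real.exp_nat_mul]
            norm_num
            congr 1
            ring
    have a6 : Real.exp (-(3 * x / 200)) / 1000 ≤ (1 / (k : ℝ)) ^ 3 := by
      have e1 : 1 / (10 * Real.exp (x / 200)) ≤ 1 / (k : ℝ) :=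
        one_div_le_one_div_of_le (by linarith) a4
      refine le_trans (le_of_eq ?_) (pow_le_pow_left₀ (by positivity) e1 3)
      have e2 : Real.exp (x / 200) ^ 3 = Real.exp (3 * x / 200) := by
        rw [← Real.exp_nat_mul]
        congr 1
        push_cast
        ring
      have e3 := (Real.exp_pos (x / 200)).ne'
      rw [Real.exp_neg, ← e2, div_pow, mul_pow]
      field_simp
      norm_num
    have a7 : Real.exp (7 * x / 20) * (2 * Real.exp (-(9 * x / 20))) ≤
        Real.exp (-(3 * x / 200)) / 2000 := by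
      have e1 : Real.exp (7 * x / 20) * (2 * Real.exp (-(9 * x / 20))) =
          2 * Real.exp (-(x / 10)) := by
        rw [mul_left_comm, ← Real.exp_add]
        congr 2
        ring
      have e2 : Real.exp (-(3 * x / 200)) = Real.exp (17 / 200 * x) * Real.exp (-(x / 10)) := by
        rw [← Real.exp_add]
        congr 1
        ring
      rw [e1, e2]
      have := Real.exp_pos (-(x / 10))
      nlinarith
    have a8 : Real.exp (7 * x / 20) * (k * p) ≤ Real.exp (-(3 * x / 200)) / 2000 := by
      have e1 : (k : ℝ) * p ≤ 10 * Real.exp (x / 200) * (Real.exp (11 * x) / n) :=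
        mul_le_mul a4 hp2 hp0.le (by positivity)
      have e2 : Real.exp (7 * x / 20) * (10 * Real.exp (x / 200) * (Real.exp (11 * x) / n)) =
          10 * Real.exp (7 * x / 20 + x / 200 + 11 * x) / n := by
        rw [Real.exp_add, Real.exp_add]
        ring
      refine (mul_le_mul_of_nonneg_left e1 (Real.exp_pos _).le).trans ?_
      rw [e2, div_le_iff₀ hn0]
      have e3 : 20000 * Real.exp (7 * x / 20 + x / 200 + 11 * x) ≤
          Real.exp (-(3 * x / 200)) * n := by
        rw [← hn, ← Real.exp_add]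
        calc 20000 * Real.exp (7 * x / 20 + x / 200 + 11 * x)
            ≤ Real.exp 20 * Real.exp (7 * x / 20 + x / 200 + 11 * x) :=
              mul_le_mul_of_nonneg_right (by linarith) (Real.exp_pos _).le
          _ = Real.exp (20 + (7 * x / 20 + x / 200 + 11 * x)) := (Real.exp_add _ _).symm
          _ ≤ _ := Real.exp_le_exp.2 (by linarith)
      linarith
    have a9 : 32 ^ k * (4 ^ k * (Real.sqrt (2 ^ k * (k / (n * p))) + k * p)) =
        ((32 : ℝ) ^ k * 4 ^ k) * Real.sqrt (2 ^ k * (k / (n * p))) +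
        ((32 : ℝ) ^ k * 4 ^ k) * (k * p) := by ring
    rw [a9]
    have b1 : ((32 : ℝ) ^ k * 4 ^ k) * Real.sqrt (2 ^ k * (k / (n * p))) ≤
        Real.exp (7 * x / 20) * (2 * Real.exp (-(9 * x / 20))) :=
      mul_le_mul a2 a5 (Real.sqrt_nonneg _) (Real.exp_pos _).le
    have b2 : ((32 : ℝ) ^ k * 4 ^ k) * (k * p) ≤ Real.exp (7 * x / 20) * (k * p) :=
      mul_le_mul_of_nonneg_right a2 (by positivity)
    linarith
  · -- the weight of the bad sets
    have a1 : (2 : ℝ) ^ (4 * k ^ 3) ≤ Real.exp (x ^ 3) := by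
      refine (two_pow_le _).trans (Real.exp_le_exp.2 ?_)
      push_cast
      have : (k : ℝ) ^ 3 ≤ (x / 20) ^ 3 := pow_le_pow_left₀ (by positivity) hk1 3
      nlinarith
    have a2 : 4 * p ≤ Real.exp (2 + 11 * x - Real.exp x) := by
      rw [Real.exp_sub, Real.exp_add, hn, mul_div_assoc]
      have e1 : (4 : ℝ) ≤ Real.exp 2 := by
        have := two_pow_le 2
        norm_num at this
        exact this
      exact mul_le_mul e1 hp2 hp0.le (Real.exp_pos _).le
    have a3 : (1 + 8 * (n * p)) ^ (3 * k) ≤ Real.exp (2 * x ^ 2) := by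
      have e1 : 1 + 8 * (n * p) ≤ Real.exp (12 * x) := by
        have e2 : Real.exp (12 * x) = Real.exp x * Real.exp (11 * x) := by
          rw [← Real.exp_add]
          congr 1
          ring
        have e3 : 1 ≤ Real.exp (11 * x) := Real.one_le_exp (by linarith)
        rw [e2]
        nlinarith
      calc (1 + 8 * (n * p)) ^ (3 * k) ≤ Real.exp (12 * x) ^ (3 * k) :=
            pow_le_pow_left₀ (by positivity) e1 _
        _ = Real.exp ((3 * k : ℕ) * (12 * x)) := (Real.exp_nat_mul _ _).symm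
        _ ≤ _ := by
            apply Real.exp_le_exp.2
            push_cast
            nlinarith
    calc 2 ^ (4 * k ^ 3) * (4 * p) * (1 + 8 * (n * p)) ^ (3 * k)
        ≤ Real.exp (x ^ 3) * Real.exp (2 + 11 * x - Real.exp x) * Real.exp (2 * x ^ 2) :=
          mul_le_mul (mul_le_mul a1 a2 (by positivity) (Real.exp_pos _).le) a3 (by positivity)
            (by positivity)
      _ = Real.exp (x ^ 3 + (2 + 11 * x - Real.exp x) + 2 * x ^ 2) := by
          rw [Real.exp_add, Real.exp_add]
      _ ≤ _ := by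
          apply Real.exp_le_exp.2
          nlinarith

/-- growth of the logit -/
theorem logit {P P' : ℝ → ℝ} {a b κ δ : ℝ} (ha : 0 < a) (hab : a ≤ b) (hδ : 0 < δ)
    (hd : ∀ t ∈ Set.Icc a b, HasDerivAt P (P' t) t)
    (h1 : ∀ t ∈ Set.Icc a b, δ ≤ P t) (h2 : ∀ t ∈ Set.Icc a b, P t ≤ 1 - δ)
    (h3 : ∀ t ∈ Set.Icc a b, κ * (P t * (1 - P t)) ≤ t * P' t) :
    κ * (Real.log b - Real.log a) ≤ -(2 * Real.log δ) := by
  set Φ : ℝ → ℝ := fun t => Real.log (P t) - Real.log (1 - P t) - κ * Real.log t with hΦ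
  have hder : ∀ t ∈ Set.Icc a b, HasDerivAt Φ (P' t / P t - -P' t / (1 - P t) - κ * t⁻¹) t := by
    intro t ht
    have t0 : 0 < t := lt_of_lt_of_le ha ht.1
    have p1 : 0 < P t := lt_of_lt_of_le hδ (h1 t ht)
    have p2 : 0 < 1 - P t := by linarith [h2 t ht]
    have e1 := (hd t ht).log p1.ne'
    have e2 := ((hd t ht).const_sub 1).log p2.ne'
    have e3 := (Real.hasDerivAt_log t0.ne').const_mul κ
    exact (e1.sub e2).sub e3
  have hmono : MonotoneOn Φ (Set.Icc a b) := by
    apply monotoneOn_of_deriv_nonneg (convex_Icc a b)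
    · intro t ht
      exact (hder t ht).continuousAt.continuousWithinAt
    · intro t ht
      rw [interior_Icc] at ht
      exact (hder t (Set.Ioo_subset_Icc_self ht)).differentiableAt.differentiableWithinAt
    · intro t ht
      rw [interior_Icc] at ht
      have ht' := Set.Ioo_subset_Icc_self ht
      rw [(hder t ht').deriv]
      have t0 : 0 < t := lt_of_lt_of_le ha ht'.1
      have p1 : 0 < P t := lt_of_lt_of_le hδ (h1 t ht')
      have p2 : 0 < 1 - P t := by linarith [h2 t ht']
      have e1 : P' t / P t - -P' t / (1 - P t) - κ * t⁻¹ =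
          (t * P' t - κ * (P t * (1 - P t))) / (t * (P t * (1 - P t))) := by
        field_simp
        ring
      rw [e1]
      have := h3 t ht'
      exact div_nonneg (by linarith) (by positivity)
  have ha' : a ∈ Set.Icc a b := ⟨le_rfl, hab⟩
  have hb' : b ∈ Set.Icc a b := ⟨hab, le_rfl⟩
  have h4 := hmono ha' hb' hab
  simp only [hΦ] at h4
  have c1 : Real.log (P b) ≤ 0 := Real.log_nonpos (by linarith [h1 b hb']) (by
    linarith [h2 b hb'])
  have c2 : Real.log δ ≤ Real.log (1 - P b) := Real.log_le_log hδ (by linarith [h2 b hb'])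
  have c3 : Real.log δ ≤ Real.log (P a) := Real.log_le_log hδ (h1 a ha')
  have c4 : Real.log (1 - P a) ≤ 0 := Real.log_nonpos (by linarith [h2 a ha']) (by
    linarith [h1 a ha'])
  linarith

end Pool.Agent.Lib.AMP
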