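import Pool.Agent.Lib.MP_dcb6ed_co_AMP.Level

/-!
# Project AMP (MP_dcb6ed_co): Russo's formula, planting and the second moment over a group
-/

set_option autoImplicit false

namespace Pool.Agent.Lib.AMP

open Finset

section Russo

variable {α : Type} [DecidableEq α]

/-- Russo's formula -/
theorem russo (p : ℝ) (U : Finset α) (F : Finset α → ℝ) :
    HasDerivAt (fun q => Ep q U F) (∑ i ∈ U, Ep p U (dl i F)) p := by
  induction U using Finset.induction generalizing F with
  | empty =>
    simp only [Ep_empty, sum_empty]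
    exact hasDerivAt_const _ _
  | insert i U hi ih =>
    have h1 : (fun q => Ep q (insert i U) F) = fun q =>
        q * Ep q U (fun W => F (insert i W)) + (1 - q) * Ep q U F := by
      funext q
      exact Ep_insert q hi F
    rw [h1]
    have h2 := (hasDerivAt_id p).mul (ih (fun W => F (insert i W)))
    have h3 := ((hasDerivAt_id p).const_sub 1).mul (ih F)
    have h4 := h2.add h3
    refine h4.congr_deriv ?_
    rw [sum_insert hi, Ep_insert p hi]
    have e1 : Ep p U (fun W => dl i F (insert i W)) =
        Ep p U (fun W => F (insert i W)) - Ep p U F := by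
      rw [← Ep_sub]
      exact Ep_congr fun W hW => dl_insert (fun h' => hi (hW h')) F
    have e2 : Ep p U (dl i F) = Ep p U (fun W => F (insert i W)) - Ep p U F := by
      rw [← Ep_sub]
      exact Ep_congr fun W hW => dl_notMem (fun h' => hi (hW h')) F
    have e3 : ∑ j ∈ U, Ep p (insert i U) (dl j F) =
        p * ∑ j ∈ U, Ep p U (dl j (fun W => F (insert i W))) +
        (1 - p) * ∑ j ∈ U, Ep p U (dl j F) := by
      rw [mul_sum, mul_sum, ← sum_add_distrib]
      refine sum_congr rfl fun j hj => ?_
      rw [Ep_insert p hi]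
      congr 2
      refine Ep_congr fun W hW => ?_
      have hij : i ≠ j := by
        rintro rfl
        exact hi hj
      unfold dl
      rw [insert_comm, erase_insert_of_ne hij]
    rw [e1, e2, e3]
    simp only [id_eq]
    ring

/-- probability of containing a set -/
theorem Ep_subset (p : ℝ) {U S : Finset α} (hS : S ⊆ U) :
    Ep p U (fun W => if S ⊆ W then 1 else 0) = p ^ S.card := by
  induction U using Finset.induction generalizing S with
  | empty => simp [Ep_empty, subset_empty.1 hS]
  | insert i U hi ih =>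
    rw [Ep_insert p hi]
    by_cases hiS : i ∈ S
    · have h0 : Ep p U (fun W => if S ⊆ W then (1 : ℝ) else 0) = 0 := by
        have : Ep p U (fun W => if S ⊆ W then (1 : ℝ) else 0) = Ep p U (fun _ => 0) :=
          Ep_congr fun W hW => if_neg fun h' => hi (hW (h' hiS))
        rw [this, Ep_const]
      have h1 : Ep p U (fun W => if S ⊆ insert i W then (1 : ℝ) else 0) =
          Ep p U (fun W => if S.erase i ⊆ W then (1 : ℝ) else 0) :=
        Ep_congr fun W _ => by simp only [subset_insert_iff]
      rw [h0, h1, ih (S := S.erase i) (by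
        intro x hx
        rw [mem_erase] at hx
        exact (mem_insert.1 (hS hx.2)).resolve_left hx.1), mul_zero, add_zero,
        ← pow_succ', card_erase_add_one hiS]
    · have hSU : S ⊆ U := by
        intro x hx
        refine (mem_insert.1 (hS hx)).resolve_left ?_
        rintro rfl
        exact hiS hx
      have h1 : Ep p U (fun W => if S ⊆ insert i W then (1 : ℝ) else 0) =
          Ep p U (fun W => if S ⊆ W then (1 : ℝ) else 0) :=
        Ep_congr fun W _ => by simp only [subset_insert_iff_of_notMem hiS]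
      rw [h1, ih hSU]
      ring

/-- planting a set -/
theorem Ep_plant (p : ℝ) {U S : Finset α} (hS : S ⊆ U) (F : Finset α → ℝ) :
    Ep p U (fun W => if S ⊆ W then F W else 0) = p ^ S.card * Ep p U (fun W => F (W ∪ S)) := by
  induction U using Finset.induction generalizing S F with
  | empty => simp [Ep_empty, subset_empty.1 hS]
  | insert i U hi ih =>
    rw [Ep_insert p hi, Ep_insert p hi]
    by_cases hiS : i ∈ S
    · have h0 : Ep p U (fun W => if S ⊆ W then F W else 0) = 0 := by
        have : Ep p U (fun W => if S ⊆ W then F W else 0) = Ep p U (fun _ => 0) :=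
          Ep_congr fun W hW => if_neg fun h' => hi (hW (h' hiS))
        rw [this, Ep_const]
      have h1 : Ep p U (fun W => if S ⊆ insert i W then F (insert i W) else 0) =
          Ep p U (fun W => if S.erase i ⊆ W then F (insert i W) else 0) :=
        Ep_congr fun W _ => by simp only [subset_insert_iff]
      have h2 := ih (S := S.erase i) (by
        intro x hx
        rw [mem_erase] at hx
        exact (mem_insert.1 (hS hx.2)).resolve_left hx.1) (fun W => F (insert i W))
      have h3 : Ep p U (fun W => F (insert i W ∪ S)) =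
          Ep p U (fun W => F (insert i (W ∪ S.erase i))) := by
        refine Ep_congr fun W _ => ?_
        congr 1
        ext x
        simp only [mem_union, mem_insert, mem_erase]
        by_cases hx : x = i
        · simp [hx]
        · simp [hx]
      have h4 : Ep p U (fun W => F (W ∪ S)) =
          Ep p U (fun W => F (insert i (W ∪ S.erase i))) := by
        refine Ep_congr fun W _ => ?_
        congr 1
        ext x
        simp only [mem_union, mem_insert, mem_erase]
        by_cases hx : x = i
        · simp [hx, hiS]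
        · simp [hx]
      rw [h0, h1, h2, h3, h4, ← card_erase_add_one hiS, pow_succ]
      ring
    · have hSU : S ⊆ U := by
        intro x hx
        refine (mem_insert.1 (hS hx)).resolve_left ?_
        rintro rfl
        exact hiS hx
      have h1 : Ep p U (fun W => if S ⊆ insert i W then F (insert i W) else 0) =
          Ep p U (fun W => if S ⊆ W then F (insert i W) else 0) :=
        Ep_congr fun W _ => by simp only [subset_insert_iff_of_notMem hiS]
      rw [h1, ih hSU (fun W => F (insert i W)), ih hSU F]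
      simp only [insert_union]
      ring

/-- removing a set -/
theorem Ep_remove {p : ℝ} (h0 : 0 ≤ p) (h1 : p ≤ 1) {U : Finset α} {f : Finset α → ℝ}
    (hf : Inc f) {S : Finset α} (hS : S ⊆ U) :
    Ep p U f - Ep p U (fun W => f (W \ S)) ≤ S.card * p := by
  rw [← Ep_sub]
  have h2 : Ep p U (fun W => f W - f (W \ S)) ≤
      Ep p U (fun W => ∑ i ∈ S, if ({i} : Finset α) ⊆ W then (1 : ℝ) else 0) := by
    refine Ep_mono h0 h1 fun W _ => ?_
    by_cases h : ∃ i ∈ S, i ∈ W
    · obtain ⟨i, hi, hiW⟩ := h
      have h3 : f W - f (W \ S) ≤ 1 := by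
        rcases hf.zo W with a | a <;> rcases hf.zo (W \ S) with b | b <;> rw [a, b] <;> norm_num
      refine h3.trans ?_
      have h4 := single_le_sum (f := fun i => if ({i} : Finset α) ⊆ W then (1 : ℝ) else 0)
        (fun j _ => by split_ifs <;> norm_num) hi
      refine le_trans (le_of_eq ?_) h4
      simp [hiW]
    · have h3 : W \ S = W := by
        rw [Finset.sdiff_eq_self_iff_disjoint, disjoint_left]
        intro i hi hi'
        exact h ⟨i, hi', hi⟩
      rw [h3, sub_self]
      exact sum_nonneg fun j _ => by split_ifs <;> norm_num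
  refine h2.trans ?_
  rw [Ep_sum]
  have h3 : ∀ i ∈ S, Ep p U (fun W => if ({i} : Finset α) ⊆ W then (1 : ℝ) else 0) = p := by
    intro i hi
    rw [Ep_subset p (singleton_subset_iff.2 (hS hi))]
    simp
  rw [sum_congr rfl h3, sum_const, nsmul_eq_mul]

end Russo

section Group

variable {α : Type} [DecidableEq α] [Fintype α] {G : Type} [Group G] [Fintype G]

theorem Ep_perm (p : ℝ) (π : Equiv.Perm α) (F : Finset α → ℝ) :
    Ep p univ (fun W => F (W.map π.toEmbedding)) = Ep p univ F := by
  unfold Ep
  rw [powerset_univ]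
  refine Fintype.sum_equiv π.finsetCongr _ _ fun W => ?_
  show wt p univ W * F (W.map π.toEmbedding) = wt p univ (W.map π.toEmbedding) *
    F (W.map π.toEmbedding)
  congr 1
  unfold wt
  rw [card_map, card_sdiff_of_subset (subset_univ _), card_sdiff_of_subset (subset_univ _),
    card_map]

/-- the density of the planted measure -/
noncomputable def den (p : ℝ) (ρ : G →* Equiv.Perm α) (S W : Finset α) : ℝ :=
  (Fintype.card G : ℝ)⁻¹ * ∑ g : G,
    (p ^ S.card)⁻¹ * (if S.map (ρ g).toEmbedding ⊆ W then 1 else 0)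

omit [Fintype α] in
theorem den_inv (p : ℝ) (ρ : G →* Equiv.Perm α) (S W : Finset α) (a : G) :
    den p ρ S (W.map (ρ a).toEmbedding) = den p ρ S W := by
  unfold den
  congr 1
  refine Fintype.sum_equiv (Equiv.mulLeft a⁻¹) _ _ fun g => ?_
  congr 1
  have h : S.map (ρ g).toEmbedding ⊆ W.map (ρ a).toEmbedding ↔
      S.map (ρ (Equiv.mulLeft a⁻¹ g)).toEmbedding ⊆ W := by
    constructor
    · intro h x hx
      rw [mem_map] at hx
      obtain ⟨y, hy, rfl⟩ := hx
      have h2 := h (mem_map_of_mem (ρ g).toEmbedding hy)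
      rw [mem_map] at h2
      obtain ⟨w, hw, hw2⟩ := h2
      have : (ρ (a⁻¹ * g)) y = w := by
        rw [map_mul, Equiv.Perm.mul_apply]
        have h3 : (ρ g) y = (ρ a) w := hw2.symm
        rw [h3, ← Equiv.Perm.mul_apply, ← map_mul]
        simp
      show (ρ (a⁻¹ * g)) y ∈ W
      rw [this]
      exact hw
    · intro h x hx
      rw [mem_map] at hx
      obtain ⟨y, hy, rfl⟩ := hx
      have h2 : (ρ (a⁻¹ * g)) y ∈ W := h (mem_map_of_mem _ hy)
      rw [mem_map]
      refine ⟨_, h2, ?_⟩
      show (ρ a) ((ρ (a⁻¹ * g)) y) = (ρ g) y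
      rw [← Equiv.Perm.mul_apply, ← map_mul]
      simp
  simp only [h]

/-- planting a random copy of `S` -/
theorem Ep_den {p : ℝ} (h0 : 0 < p) (ρ : G →* Equiv.Perm α) (S : Finset α) (F : Finset α → ℝ)
    (hF : ∀ (g : G) (W : Finset α), F (W.map (ρ g).toEmbedding) = F W) :
    Ep p univ (fun W => F W * den p ρ S W) = Ep p univ (fun W => F (W ∪ S)) := by
  have h1 : Ep p univ (fun W => F W * den p ρ S W) = (Fintype.card G : ℝ)⁻¹ * ∑ g : G,
      (p ^ S.card)⁻¹ * Ep p univ (fun W => if S.map (ρ g).toEmbedding ⊆ W then F W else 0) := by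
    rw [mul_sum]
    have : ∀ W, F W * den p ρ S W = ∑ g : G, (Fintype.card G : ℝ)⁻¹ * ((p ^ S.card)⁻¹ *
        (if S.map (ρ g).toEmbedding ⊆ W then F W else 0)) := by
      intro W
      unfold den
      rw [mul_sum, mul_sum]
      refine sum_congr rfl fun g _ => ?_
      split_ifs <;> ring
    simp only [this]
    rw [Ep_sum]
    refine sum_congr rfl fun g _ => ?_
    rw [Ep_smul, Ep_smul]
  have h2 : ∀ g : G, (p ^ S.card)⁻¹ *
      Ep p univ (fun W => if S.map (ρ g).toEmbedding ⊆ W then F W else 0) =
      Ep p univ (fun W => F (W ∪ S)) := by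
    intro g
    rw [Ep_plant p (subset_univ _), card_map, ← mul_assoc, inv_mul_cancel₀ (by positivity),
      one_mul, ← Ep_perm p (ρ g)]
    refine Ep_congr fun W _ => ?_
    rw [← map_union, hF]
  rw [h1, sum_congr rfl fun g _ => h2 g, sum_const, nsmul_eq_mul, ← mul_assoc, card_univ,
    inv_mul_cancel₀ (by
      have := Fintype.card_pos (α := G)
      positivity), one_mul]

/-- the second moment of the density -/
theorem Ep_den_sq {p : ℝ} (h0 : 0 < p) (h1 : p ≤ 1) (ρ : G →* Equiv.Perm α) (S : Finset α) :
    Ep p univ (fun W => den p ρ S W ^ 2) ≤ 1 + ∑ R ∈ S.powerset.erase ∅, (p ^ R.card)⁻¹ *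
      ((univ.filter (fun g : G => R ⊆ S.map (ρ g).toEmbedding)).card / Fintype.card G) := by
  have hG : (0 : ℝ) < Fintype.card G := by exact_mod_cast Fintype.card_pos (α := G)
  have e1 : Ep p univ (fun W => den p ρ S W ^ 2) = Ep p univ (fun W => den p ρ S (W ∪ S)) := by
    rw [← Ep_den h0 ρ S (den p ρ S) (fun g W => den_inv p ρ S W g)]
    exact Ep_congr fun W _ => sq _
  have e2 : Ep p univ (fun W => den p ρ S (W ∪ S)) = (Fintype.card G : ℝ)⁻¹ * ∑ g : G,
      (p ^ (S.map (ρ g).toEmbedding ∩ S).card)⁻¹ := by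
    unfold den
    rw [Ep_smul, Ep_sum]
    congr 1
    refine sum_congr rfl fun g _ => ?_
    rw [Ep_smul]
    have h3 : Ep p univ (fun W => if S.map (ρ g).toEmbedding ⊆ W ∪ S then (1 : ℝ) else 0) =
        Ep p univ (fun W => if S.map (ρ g).toEmbedding \ S ⊆ W then (1 : ℝ) else 0) := by
      refine Ep_congr fun W _ => ?_
      have : S.map (ρ g).toEmbedding ⊆ W ∪ S ↔ S.map (ρ g).toEmbedding \ S ⊆ W := by
        constructor
        · intro h x hx
          rw [mem_sdiff] at hx
          exact (mem_union.1 (h hx.1)).resolve_right hx.2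
        · intro h x hx
          by_cases hxS : x ∈ S
          · exact mem_union_right _ hxS
          · exact mem_union_left _ (h (mem_sdiff.2 ⟨hx, hxS⟩))
      simp only [this]
    rw [h3, Ep_subset p (subset_univ _)]
    have h4 := card_sdiff_add_card_inter (S.map (ρ g).toEmbedding) S
    rw [card_map] at h4
    nth_rewrite 1 [← h4]
    rw [pow_add]
    field_simp
  have e3 : ∀ g : G, (p ^ (S.map (ρ g).toEmbedding ∩ S).card)⁻¹ ≤
      ∑ R ∈ S.powerset, if R ⊆ S.map (ρ g).toEmbedding then (p ^ R.card)⁻¹ else 0 := by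
    intro g
    set Q := S.map (ρ g).toEmbedding ∩ S with hQ
    have h3 : (p ^ Q.card)⁻¹ = ∑ R ∈ Q.powerset, (p⁻¹ - 1) ^ R.card := by
      have h4 := sum_pow_mul_eq_add_pow (p⁻¹ - 1) (1 : ℝ) Q
      simp only [one_pow, mul_one] at h4
      rw [h4, sub_add_cancel, inv_pow]
    rw [h3, ← sum_filter]
    have h5 : Q.powerset = S.powerset.filter (fun R => R ⊆ S.map (ρ g).toEmbedding) := by
      ext R
      rw [mem_powerset, mem_filter, mem_powerset, hQ, subset_inter_iff]
      exact And.comm
    rw [h5]
    refine sum_le_sum fun R _ => ?_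
    rw [← inv_pow]
    have h6 : 1 ≤ p⁻¹ := (one_le_inv₀ h0).2 h1
    exact pow_le_pow_left₀ (by linarith) (by linarith) _
  rw [e1, e2]
  calc (Fintype.card G : ℝ)⁻¹ * ∑ g : G, (p ^ (S.map (ρ g).toEmbedding ∩ S).card)⁻¹
      ≤ (Fintype.card G : ℝ)⁻¹ * ∑ g : G, ∑ R ∈ S.powerset,
          if R ⊆ S.map (ρ g).toEmbedding then (p ^ R.card)⁻¹ else 0 :=
        mul_le_mul_of_nonneg_left (sum_le_sum fun g _ => e3 g) (by positivity)
    _ = ∑ R ∈ S.powerset, (p ^ R.card)⁻¹ *
      ((univ.filter (fun g : G => R ⊆ S.map (ρ g).toEmbedding)).card / Fintype.card G) := by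
        rw [sum_comm, mul_sum]
        refine sum_congr rfl fun R _ => ?_
        rw [← sum_filter, sum_const, nsmul_eq_mul]
        field_simp
    _ = _ := by
        rw [← add_sum_erase _ _ (empty_mem_powerset S)]
        congr 1
        have : (univ.filter (fun g : G => (∅ : Finset α) ⊆ S.map (ρ g).toEmbedding)) = univ := by
          ext g
          simp
        rw [this, card_univ, div_self hG.ne']
        simp

/-- planting one copy changes the probability little -/
theorem plant_le {p : ℝ} (h0 : 0 < p) (h1 : p ≤ 1) (ρ : G →* Equiv.Perm α) (S : Finset α)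
    {f : Finset α → ℝ} (hf : Inc f)
    (hF : ∀ (g : G) (W : Finset α), f (W.map (ρ g).toEmbedding) = f W) {v : ℝ} (hv0 : 0 ≤ v)
    (hv : ∑ R ∈ S.powerset.erase ∅, (p ^ R.card)⁻¹ *
      ((univ.filter (fun g : G => R ⊆ S.map (ρ g).toEmbedding)).card / Fintype.card G : ℝ) ≤
      v ^ 2) :
    Ep p univ (fun W => f (W ∪ S)) - Ep p univ f ≤ v := by
  have e1 := Ep_den h0 ρ S f hF
  have e2 := Ep_den h0 ρ S (fun _ => 1) (fun _ _ => rfl)
  have e3 := Ep_den_sq h0 h1 ρ S
  rw [Ep_const] at e2
  simp only [one_mul] at e2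
  have e4 : Ep p univ (fun W => f W * (den p ρ S W - 1)) =
      Ep p univ (fun W => f (W ∪ S)) - Ep p univ f := by
    rw [← e1, ← Ep_sub]
    exact Ep_congr fun W _ => by ring
  have e5 := Ep_cs h0.le h1 univ f (fun W => den p ρ S W - 1)
  have e6 : Ep p univ (fun W => (den p ρ S W - 1) ^ 2) =
      Ep p univ (fun W => den p ρ S W ^ 2) - 1 := by
    have : Ep p univ (fun W => (den p ρ S W - 1) ^ 2) =
        Ep p univ (fun W => den p ρ S W ^ 2 + ((-2) * den p ρ S W + 1)) :=
      Ep_congr fun W _ => by ring
    rw [this, Ep_add, Ep_add, Ep_smul, Ep_const]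
    have e7 : Ep p univ (fun W => den p ρ S W) = 1 := e2
    rw [e7]
    ring
  have e7 : Ep p univ (fun W => f W ^ 2) ≤ 1 := by
    refine le_trans (Ep_mono h0.le h1 (G := fun _ => 1) fun W _ => ?_) (Ep_const p univ 1).le
    rcases hf.zo W with a | a <;> rw [a] <;> norm_num
  have e8 : 0 ≤ Ep p univ (fun W => (den p ρ S W - 1) ^ 2) :=
    Ep_nonneg h0.le h1 fun W _ => sq_nonneg _
  rw [e4] at e5
  have e9 : (Ep p univ (fun W => f (W ∪ S)) - Ep p univ f) ^ 2 ≤ v ^ 2 := by
    refine e5.trans ?_
    calc Ep p univ (fun W => f W ^ 2) * Ep p univ (fun W => (den p ρ S W - 1) ^ 2)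
        ≤ 1 * Ep p univ (fun W => (den p ρ S W - 1) ^ 2) := mul_le_mul_of_nonneg_right e7 e8
      _ ≤ v ^ 2 := by
          rw [one_mul, e6]
          linarith
  exact le_trans (le_abs_self _) (abs_le_of_sq_le_sq e9 hv0)

end Group

end Pool.Agent.Lib.AMP
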